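import Pool.Agent.H.MP_6c077c_gt.AreaGlob

/-! Regular directions near a given direction. -/

set_option autoImplicit false

namespace Pool.Schoen

open MeasureTheory Measure Module Set Filter
open scoped ENNReal NNReal Topology RealInnerProductSpace ContDiff

variable {V : Type*} [NormedAddCommGroup V] [InnerProductSpace ℝ V] [FiniteDimensional ℝ V]

/-- A set of unit vectors of measure zero does not contain all unit vectors near a given one. -/
theorem exists_unit_near [MeasurableSpace V] [BorelSpace V] (n : ℕ) (hn : finrank ℝ V = n + 1)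
    (u : V) (hu : ‖u‖ = 1) (δ : ℝ) (hδ : 0 < δ) (S : Set V) (hS : μH[(n : ℕ)] S = 0) :
    ∃ v : V, ‖v‖ = 1 ∧ ‖v - u‖ < δ ∧ v ∉ S := by
  by_contra hcon
  push Not at hcon
  have : Fact (finrank ℝ V = n + 1) := ⟨hn⟩
  have hu0 : u ≠ 0 := by
    rw [← norm_ne_zero_iff, hu]
    exact one_ne_zero
  have hfr : finrank ℝ (ℝ ∙ u)ᗮ = n := Submodule.finrank_orthogonal_span_singleton hu0
  set P := (ℝ ∙ u)ᗮ.orthogonalProjectionOnto with hP
  have hPL : LipschitzWith 1 P := by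
    refine LipschitzWith.of_dist_le_mul fun y z => ?_
    rw [dist_eq_norm, dist_eq_norm, ← map_sub, NNReal.coe_one, one_mul]
    exact (ℝ ∙ u)ᗮ.norm_orthogonalProjectionOnto_apply_le (y - z)
  have h1 : μH[(n : ℝ)] (P '' S) = 0 := by
    have h2 := hPL.hausdorffMeasure_image_le (d := (n : ℝ)) (by positivity) S
    rw [hS, mul_zero] at h2
    exact le_antisymm h2 zero_le
  set r : ℝ := min 1 δ / 2 with hr
  have hr0 : 0 < r := by positivity
  have hr1 : r ≤ 1 / 2 := by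
    rw [hr]
    have := min_le_left 1 δ
    linarith
  have hrδ : r ≤ δ / 2 := by
    rw [hr]
    have := min_le_right 1 δ
    linarith
  have h2 : Metric.ball (0 : (ℝ ∙ u)ᗮ) r ⊆ P '' S := by
    intro z hz
    rw [mem_ball_zero_iff] at hz
    have hzu : ⟪u, (z : V)⟫ = 0 := Submodule.mem_orthogonal_singleton_iff_inner_right.1 z.2
    have hzn : ‖(z : V)‖ = ‖z‖ := rfl
    have hz0 := norm_nonneg z
    obtain ⟨c, hc⟩ : ∃ c, c = Real.sqrt (1 - ‖z‖ ^ 2) := ⟨_, rfl⟩
    have hpos : 0 ≤ 1 - ‖z‖ ^ 2 := by nlinarith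
    have hc2 : c ^ 2 = 1 - ‖z‖ ^ 2 := by rw [hc]; exact Real.sq_sqrt hpos
    have hc0 : 0 ≤ c := by rw [hc]; exact Real.sqrt_nonneg _
    have hc1 : 1 - ‖z‖ ^ 2 ≤ c := by nlinarith
    have hc3 : c ≤ 1 := by nlinarith
    refine ⟨(z : V) + c • u, hcon _ ?_ ?_, ?_⟩
    · have h3 : ‖(z : V) + c • u‖ ^ 2 = 1 := by
        rw [@norm_add_sq_real, norm_smul, mul_pow, inner_smul_right, real_inner_comm, hzu, hu,
          Real.norm_eq_abs, sq_abs, hc2, hzn]
        ring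
      rwa [pow_eq_one_iff_of_nonneg (norm_nonneg _) two_ne_zero] at h3
    · have h3 : ‖(z : V) + c • u - u‖ ^ 2 = ‖z‖ ^ 2 + (1 - c) ^ 2 := by
        have h4 : (z : V) + c • u - u = (z : V) + (c - 1) • u := by module
        rw [h4, @norm_add_sq_real, norm_smul, mul_pow, inner_smul_right, real_inner_comm, hzu, hu,
          Real.norm_eq_abs, sq_abs, hzn]
        ring
      have h5 : ‖(z : V) + c • u - u‖ ^ 2 < δ ^ 2 := by
        rw [h3]
        have h6 : ‖z‖ ^ 2 < (δ / 2) ^ 2 := by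
          apply pow_lt_pow_left₀ (by linarith) hz0 two_ne_zero
        have h7 : (1 - c) ^ 2 ≤ ‖z‖ ^ 2 := by
          have h8 : 1 - c ≤ ‖z‖ ^ 2 := by linarith
          have h9 : ‖z‖ ^ 2 ≤ ‖z‖ := by nlinarith
          exact pow_le_pow_left₀ (by linarith) (by linarith) 2
        nlinarith
      exact lt_of_pow_lt_pow_left₀ 2 hδ.le h5
    · have h3 : P ((z : V) + c • u) = z := by
        apply Subtype.ext
        rw [hP, coe_projT u hu, inner_add_right, inner_smul_right, hzu,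
          real_inner_self_eq_norm_sq, hu]
        module
      exact h3
  have h3 : IsAddHaarMeasure (μH[(n : ℝ)] : Measure (ℝ ∙ u)ᗮ) := by
    have := MeasureTheory.isAddHaarMeasure_hausdorffMeasure (E := (ℝ ∙ u)ᗮ)
    rwa [hfr] at this
  have h4 : 0 < μH[(n : ℝ)] (Metric.ball (0 : (ℝ ∙ u)ᗮ) r) :=
    Metric.measure_ball_pos _ _ hr0
  have h5 := measure_mono (μ := (μH[(n : ℝ)] : Measure (ℝ ∙ u)ᗮ)) h2
  rw [h1] at h5
  exact absurd h4 (not_lt.2 h5)

/-- Unit vectors near a given one which are regular values of the unit normal. -/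
theorem exists_regular_near (n : ℕ) (hn : finrank ℝ V = n + 1) (G : V → ℝ) (hG : ContDiff ℝ ∞ G)
    (hreg : ∀ x, G x = 0 → gradient G x ≠ 0) (hK : IsCompact {x | G x = 0}) (u : V)
    (hu : ‖u‖ = 1) (δ : ℝ) (hδ : 0 < δ) :
    ∃ v : V, ‖v‖ = 1 ∧ ‖v - u‖ < δ ∧ ∀ x, G x = 0 → nrm G x = v → gaussK G x ≠ 0 := by
  let _ : MeasurableSpace V := borel V
  have : BorelSpace V := ⟨rfl⟩
  have hG2 : ContDiff ℝ 2 G := hG.of_le (by norm_cast)
  have hgc : ContinuousOn (gaussK G) {x | G x = 0} := fun x hx =>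
    (gaussK_continuousAt G hG2 x (hreg x hx)).continuousWithinAt
  have hZ0 : IsClosed ({x | G x = 0} ∩ gaussK G ⁻¹' {0}) :=
    hgc.preimage_isClosed_of_isClosed hK.isClosed isClosed_singleton
  have h1 := area_le n hn G hG2 hreg hK _ hZ0.measurableSet inter_subset_left
  have h2 : ∫⁻ x in ({x | G x = 0} ∩ gaussK G ⁻¹' {0}), ENNReal.ofReal |gaussK G x|
      ∂μH[((n : ℕ) : ℝ)] = 0 := by
    have e3 : ∫⁻ x in ({x | G x = 0} ∩ gaussK G ⁻¹' {0}), ENNReal.ofReal |gaussK G x|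
        ∂μH[((n : ℕ) : ℝ)] ≤ ∫⁻ x in ({x | G x = 0} ∩ gaussK G ⁻¹' {0}), 0
        ∂μH[((n : ℕ) : ℝ)] := by
      refine setLIntegral_mono' hZ0.measurableSet ?_
      rintro x ⟨-, hx⟩
      have hx' : gaussK G x = 0 := hx
      rw [hx']
      simp
    simpa using e3
  rw [h2] at h1
  obtain ⟨v, hv1, hv2, hv3⟩ := exists_unit_near n hn u hu δ hδ _ (le_antisymm h1 zero_le)
  refine ⟨v, hv1, hv2, fun x hx hxv hK0 => hv3 ⟨x, ⟨hx, hK0⟩, hxv⟩⟩

end Pool.Schoen
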