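import Pool.Agent.H.MP_6c077c_gt.IxB.SpecA

/-! The number of principal curvatures below a constant. -/

set_option autoImplicit false

namespace Pool.Schoen

open scoped ContDiff RealInnerProductSpace
open Metric Set

variable {V : Type*} [NormedAddCommGroup V] [InnerProductSpace ℝ V] [FiniteDimensional ℝ V]

/-- The number, with multiplicities, of principal curvatures at `x` of the level set of `F` which
are smaller than `-t`. -/
noncomputable def nlow (F : V → ℝ) (x : V) (t : ℝ) : ℕ :=
  Multiset.card ((LinearMap.charpoly (shape F x : V →ₗ[ℝ] V)).roots.filter fun r => r < -t)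

private theorem Spec_matrix (n : ℕ) (S : V →L[ℝ] V) (b : OrthonormalBasis (Option (Fin n)) ℝ V)
    (d : Option (Fin n) → ℝ) (h : ∀ j, S (b j) = d j • b j) :
    LinearMap.toMatrix b.toBasis b.toBasis (S : V →ₗ[ℝ] V) = Matrix.diagonal d := by
  ext i j
  rw [LinearMap.toMatrix_apply, OrthonormalBasis.coe_toBasis, ContinuousLinearMap.coe_coe, h,
    map_smul, Finsupp.smul_apply, OrthonormalBasis.coe_toBasis_repr_apply,
    OrthonormalBasis.repr_self, Matrix.diagonal_apply, smul_eq_mul, PiLp.single_apply]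
  by_cases hij : i = j
  · subst hij; simp
  · simp [hij]

private theorem Spec_count (n : ℕ) (S : V →L[ℝ] V) (b : OrthonormalBasis (Option (Fin n)) ℝ V)
    (κ : Fin n → ℝ) (h0 : S (b none) = 0) (h : ∀ i, S (b (some i)) = κ i • b (some i)) {t : ℝ}
    (ht : 0 ≤ t) :
    Multiset.card ((LinearMap.charpoly (S : V →ₗ[ℝ] V)).roots.filter fun r => r < -t) =
      (Finset.univ.filter fun i => κ i < -t).card := by
  have hd : ∀ j, S (b j) = (Option.elim j (0 : ℝ) κ) • b j := by
    intro j
    rcases j with _ | j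
    · simp [h0]
    · simp [h]
  have h1 : LinearMap.charpoly (S : V →ₗ[ℝ] V) =
      ((Finset.univ.val.map fun j : Option (Fin n) => Option.elim j (0 : ℝ) κ).map
        fun a => Polynomial.X - Polynomial.C a).prod := by
    rw [← LinearMap.charpoly_toMatrix (S : V →ₗ[ℝ] V) b.toBasis, Spec_matrix n S b _ hd,
      Matrix.charpoly_diagonal, Multiset.map_map]
    rfl
  rw [h1, Polynomial.roots_multiset_prod_X_sub_C, Multiset.filter_map, Multiset.card_map]
  have h2 : Multiset.card (Multiset.filter
      ((fun r : ℝ => r < -t) ∘ fun j : Option (Fin n) => Option.elim j (0 : ℝ) κ) Finset.univ.val) =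
      (Finset.univ.filter fun j : Option (Fin n) => Option.elim j (0 : ℝ) κ < -t).card := rfl
  rw [h2]
  have h3 : (Finset.univ.filter fun j : Option (Fin n) => Option.elim j (0 : ℝ) κ < -t) =
      (Finset.univ.filter fun i => κ i < -t).map Function.Embedding.some := by
    ext j
    rcases j with _ | j
    · simp [ht]
    · simp
  rw [h3, Finset.card_map]

theorem Spec_le (n : ℕ) (hn : Module.finrank ℝ V = n + 1) (F : V → ℝ) (hF : ContDiff ℝ ∞ F)
    (x : V) (hx : gradient F x ≠ 0) (t : ℝ) (ht : 0 ≤ t) (W : Submodule ℝ V)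
    (hW : ∀ a ∈ W, ⟪nrm F x, a⟫ = 0) (hneg : ∀ a ∈ W, a ≠ 0 → ⟪shape F x a, a⟫ < -t * ‖a‖ ^ 2) :
    Module.finrank ℝ W ≤ nlow F x t := by
  classical
  obtain ⟨b, κ, hb, hk, -, -⟩ := ix_spec n hn F hF x hx
  have hS0 : shape F x (b none) = 0 := by rw [hb]; exact level_kernel F x hx
  have hcount : nlow F x t = (Finset.univ.filter fun i => κ i < -t).card :=
    Spec_count n (shape F x) b κ hS0 hk ht
  rw [hcount]
  let f : W →ₗ[ℝ] ({i // κ i < -t} → ℝ) :=
    LinearMap.pi fun i => (innerₛₗ ℝ (b (some i.1))) ∘ₗ W.subtype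
  have hf : Function.Injective f := by
    rw [← LinearMap.ker_eq_bot, LinearMap.ker_eq_bot']
    rintro ⟨a, ha⟩ h0
    by_contra hne
    have ha0 : a ≠ 0 := fun h => hne (Subtype.ext h)
    have hcoord : ∀ i, κ i < -t → ⟪b (some i), a⟫ = 0 := by
      intro i hi
      exact congrFun h0 ⟨i, hi⟩
    have hb0 : ⟪b none, a⟫ = 0 := by rw [hb]; exact hW a ha
    have hexp : a = ∑ i, ⟪b (some i), a⟫ • b (some i) := by
      have h := b.sum_repr' a
      rw [Fintype.sum_option, hb0, zero_smul, zero_add] at h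
      exact h.symm
    have hnorm : ‖a‖ ^ 2 = ∑ i, ⟪b (some i), a⟫ * ⟪b (some i), a⟫ := by
      rw [← real_inner_self_eq_norm_sq]
      conv_lhs => rw [hexp]
      rw [sum_inner]
      have : ∀ i, ⟪⟪b (some i), a⟫ • b (some i), ∑ j, ⟪b (some j), a⟫ • b (some j)⟫ =
          ⟪b (some i), a⟫ * ⟪b (some i), a⟫ := by
        intro i
        rw [← hexp, real_inner_smul_left]
      exact Finset.sum_congr rfl fun i _ => this i
    have hquad : ⟪shape F x a, a⟫ = ∑ i, κ i * (⟪b (some i), a⟫ * ⟪b (some i), a⟫) := by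
      have h1 : shape F x a = ∑ i, ⟪b (some i), a⟫ • κ i • b (some i) := by
        conv_lhs => rw [hexp]
        rw [map_sum]
        exact Finset.sum_congr rfl fun i _ => by rw [map_smul, hk]
      rw [h1, sum_inner]
      refine Finset.sum_congr rfl fun i _ => ?_
      rw [real_inner_smul_left, real_inner_smul_left]
      ring
    have h2 := hneg a ha ha0
    rw [hquad, hnorm, Finset.mul_sum] at h2
    refine absurd h2 (not_lt.2 (Finset.sum_le_sum fun i _ => ?_))
    rcases lt_or_ge (κ i) (-t) with h | h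
    · rw [hcoord i h]
      simp
    · exact mul_le_mul_of_nonneg_right h (mul_self_nonneg _)
  have h3 := LinearMap.finrank_le_finrank_of_injective hf
  rwa [Module.finrank_fintype_fun_eq_card, Fintype.card_subtype] at h3

end Pool.Schoen
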