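import Pool.Agent.H.MP_6c077c_gt.Hy.Num
import Pool.Agent.H.MP_6c077c_gt.Hy.Spec

/-! A function which is constant near infinity with the same domain. -/

set_option autoImplicit false

namespace Pool.Schoen

open Filter Set Metric
open scoped RealInnerProductSpace ContDiff Topology

variable {V : Type*} [NormedAddCommGroup V] [InnerProductSpace ℝ V] [FiniteDimensional ℝ V]

theorem exists_cut (F : V → ℝ) (hF : ContDiff ℝ ∞ F) (r : ℝ) (hr0 : 0 ≤ r)
    (hr : ∀ x, F x ≤ 0 → ‖x‖ ≤ r) :
    ∃ G : V → ℝ, ContDiff ℝ ∞ G ∧ (∀ z, r + 2 ≤ ‖z‖ → G z = 1) ∧ (∀ x, G x ≤ 0 → ‖x‖ ≤ r) ∧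
      {x | G x = 0} = {x | F x = 0} ∧ {x | G x ≤ 0} = {x | F x ≤ 0} ∧
      ∀ x, ‖x‖ ≤ r → G =ᶠ[𝓝 x] F := by
  let f : ContDiffBump (0 : V) := ⟨r + 1, r + 2, by linarith, by linarith⟩
  have hf1 : ∀ x : V, ‖x‖ ≤ r + 1 → f x = 1 := fun x hx =>
    f.one_of_mem_closedBall (by rwa [mem_closedBall_zero_iff])
  have hf0 : ∀ x : V, r + 2 ≤ ‖x‖ → f x = 0 := fun x hx =>
    f.zero_of_le_dist (by rwa [dist_zero_right])
  have hpos : ∀ x : V, r < ‖x‖ → 0 < f x * F x + (1 - f x) := by
    intro x hx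
    have h1 : 0 < F x := by
      by_contra h
      exact absurd (hr x (not_lt.1 h)) (not_le.2 hx)
    have h2 : 0 ≤ f x := f.nonneg
    have h3 : f x ≤ 1 := f.le_one
    rcases h2.lt_or_eq with h | h
    · have := mul_pos h h1
      linarith
    · rw [← h]
      norm_num
  have hin : ∀ x : V, ‖x‖ ≤ r + 1 → f x * F x + (1 - f x) = F x := by
    intro x hx
    rw [hf1 x hx]
    ring
  have hbd : ∀ x : V, f x * F x + (1 - f x) ≤ 0 → ‖x‖ ≤ r := by
    intro x hx
    by_contra h
    exact absurd (hpos x (not_le.1 h)) (not_lt.2 hx)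
  refine ⟨fun x => f x * F x + (1 - f x), ?_, ?_, hbd, ?_, ?_, ?_⟩
  · exact (f.contDiff.mul hF).add (contDiff_const.sub f.contDiff)
  · intro z hz
    beta_reduce
    rw [hf0 z hz]
    ring
  · ext x
    constructor
    · intro hx
      have h1 := hbd x (le_of_eq hx)
      have h2 := hin x (by linarith)
      have hx' : f x * F x + (1 - f x) = 0 := hx
      rw [h2] at hx'
      exact hx'
    · intro hx
      have hx' : F x = 0 := hx
      have h1 := hr x (le_of_eq hx')
      show f x * F x + (1 - f x) = 0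
      rw [hin x (by linarith), hx']
  · ext x
    constructor
    · intro hx
      have h1 := hbd x hx
      have h2 := hin x (by linarith)
      have hx' : f x * F x + (1 - f x) ≤ 0 := hx
      rw [h2] at hx'
      exact hx'
    · intro hx
      have hx' : F x ≤ 0 := hx
      have h1 := hr x hx'
      show f x * F x + (1 - f x) ≤ 0
      rw [hin x (by linarith)]
      exact hx'
  · intro x hx
    have h1 : ball (0 : V) (r + 1) ∈ 𝓝 x := isOpen_ball.mem_nhds (by
      rw [mem_ball_zero_iff]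
      linarith)
    filter_upwards [h1] with y hy
    exact hin y (by rw [mem_ball_zero_iff] at hy; exact hy.le)

theorem gradient_congr {F G : V → ℝ} {x : V} (h : G =ᶠ[𝓝 x] F) :
    gradient G =ᶠ[𝓝 x] gradient F := by
  have h1 : fderiv ℝ G =ᶠ[𝓝 x] fderiv ℝ F := h.fderiv
  filter_upwards [h1] with y hy
  unfold gradient
  rw [hy]

theorem shape_congr {F G : V → ℝ} {x : V} (h : G =ᶠ[𝓝 x] F) :
    gradient G x = gradient F x ∧ nrm G x = nrm F x ∧ shape G x = shape F x := by
  have h1 := gradient_congr h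
  have h2 : gradient G x = gradient F x := h1.self_of_nhds
  have h3 : nrm G x = nrm F x := by
    unfold nrm
    rw [h2]
  refine ⟨h2, h3, ?_⟩
  unfold shape
  rw [h3, h2, h1.fderiv_eq]

end Pool.Schoen
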