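import Pool.Agent.H.MP_6c077c_gt.Hy.Idx
import Pool.Agent.H.MP_6c077c_gt.Hy.Cut
import Pool.Agent.H.MP_6c077c_gt.Hy.Dir
import Pool.Agent.H.MP_6c077c_gt.IxB.Final
import Pool.Agent.H.MP_6c077c_gt.IxB.SpecB

/-! Hypersurfaces of a ball with at most one principal curvature below the one of the horosphere. -/

set_option autoImplicit false

namespace Pool.Schoen

open scoped ContDiff RealInnerProductSpace
open Metric Set

variable {V : Type*} [NormedAddCommGroup V] [InnerProductSpace ℝ V] [FiniteDimensional ℝ V]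

/-- Choice of the pole. -/
theorem hy_pole {R0 R δ : ℝ} (hR0 : 0 ≤ R0) (hR : R0 < R) (hδ : 0 < δ) :
    ∃ R' : ℝ, R0 < R' ∧ R' < R ∧ 4 * R * (R - R') / ((R - R0) * R') < δ ^ 2 := by
  have hRp : 0 < R := hR0.trans_lt hR
  have hd : 0 < R - R0 := by linarith
  obtain ⟨η, hη⟩ : ∃ η, η = min (min (R / 2) ((R - R0) / 2)) (δ ^ 2 * (R - R0) / 16) := ⟨_, rfl⟩
  have h1 : η ≤ R / 2 := by rw [hη]; exact (min_le_left _ _).trans (min_le_left _ _)
  have h2 : η ≤ (R - R0) / 2 := by rw [hη]; exact (min_le_left _ _).trans (min_le_right _ _)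
  have h3 : η ≤ δ ^ 2 * (R - R0) / 16 := by rw [hη]; exact min_le_right _ _
  have h4 : 0 < η := by
    rw [hη]
    refine lt_min (lt_min (by linarith) (by linarith)) (by positivity)
  refine ⟨R - η, by linarith, by linarith, ?_⟩
  have h5 : 0 < R - η := by linarith
  rw [div_lt_iff₀ (mul_pos hd h5)]
  have h6 : 4 * R * (R - (R - η)) ≤ δ ^ 2 * (R - R0) * R / 4 := by
    have : 4 * R * η ≤ 4 * R * (δ ^ 2 * (R - R0) / 16) :=
      mul_le_mul_of_nonneg_left h3 (by linarith)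
    linarith
  have h7 : δ ^ 2 * (R - R0) * (R / 2) ≤ δ ^ 2 * ((R - R0) * (R - η)) := by
    have : δ ^ 2 * (R - R0) * (R / 2) ≤ δ ^ 2 * (R - R0) * (R - η) :=
      mul_le_mul_of_nonneg_left (by linarith) (by positivity)
    linarith
  have h8 : 0 < δ ^ 2 * (R - R0) * R := by positivity
  linarith

private theorem Main_grad (F : V → ℝ) (x a : V) : fderiv ℝ F x a = ⟪gradient F x, a⟫ :=
  (InnerProductSpace.toDual_symm_apply (𝕜 := ℝ)).symm

theorem hy_regular {F : V → ℝ} (hF : ContDiff ℝ ∞ F) {L : ℝ} (hL0 : 0 < L)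
    (hL : ∀ z, L ≤ ‖z‖ → F z = 1) (hreg : ∀ x, F x = 0 → gradient F x ≠ 0) (b z : V)
    (hz : hH F b z = 0) : gradient (hH F b) z ≠ 0 := by
  obtain ⟨h1, h2⟩ := hH_eq_zero hz
  obtain ⟨a, ha⟩ := hA_surj h1 (gradient F (hK b z))
  intro h0
  have h3 := hH_first hF hL0 hL h1 a
  rw [Main_grad, h0, inner_zero_left, ha, Main_grad, real_inner_self_eq_norm_sq] at h3
  have := norm_pos_iff.2 (hreg _ h2)
  nlinarith

theorem hy_carries (n : ℕ) (hn2 : 2 ≤ n) (hn : Module.finrank ℝ V = n + 1) (F : V → ℝ)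
    (hF : ContDiff ℝ ∞ F) (R : ℝ) (hb : ∀ x, F x ≤ 0 → ‖x‖ < R)
    (hreg : ∀ x, F x = 0 → gradient F x ≠ 0) (hMc : IsConnected {x | F x = 0})
    (hMl : LiftS {x | F x = 0}) (w : V) (hw : ‖w‖ = 1) (δ : ℝ) (hδ : 0 < δ)
    (hcurv : ∀ x, F x = 0 → ‖hGau R (nrm F x) x - w‖ < δ →
      nlow F x (hRad R (nrm F x) x)⁻¹ ≤ 1) :
    Carries {x : V | F x = 0} (sphere (0 : V) 1) := by
  have hne : {x : V | F x ≤ 0}.Nonempty := hMc.nonempty.mono fun x hx => le_of_eq hx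
  have hbd : Bornology.IsBounded {x : V | F x ≤ 0} :=
    isBounded_iff_forall_norm_le.2 ⟨R, fun x hx => (hb x hx).le⟩
  have hcp : IsCompact {x : V | F x ≤ 0} :=
    Metric.isCompact_of_isClosed_isBounded (isClosed_le hF.continuous continuous_const) hbd
  obtain ⟨x0, hx0, hmax⟩ := hcp.exists_isMaxOn hne continuous_norm.continuousOn
  obtain ⟨R0, hR0d⟩ : ∃ R0, R0 = ‖x0‖ := ⟨_, rfl⟩
  have hR0 : 0 ≤ R0 := by rw [hR0d]; exact norm_nonneg _
  have hR0R : R0 < R := by rw [hR0d]; exact hb x0 hx0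
  have hr : ∀ x, F x ≤ 0 → ‖x‖ ≤ R0 := fun x hx => by rw [hR0d]; exact hmax hx
  obtain ⟨R', h1, h2, hsmall⟩ := hy_pole hR0 hR0R hδ
  have hR' : 0 < R' := hR0.trans_lt h1
  obtain ⟨G, hG, hGL, hGr, hG0, hGle, hGF⟩ := exists_cut F hF R0 hR0 hr
  have hGz : ∀ x, G x = 0 → F x = 0 := fun x hx => by
    have : x ∈ {x | G x = 0} := hx
    rw [hG0] at this
    exact this
  have hGloc : ∀ x, G x = 0 → G =ᶠ[nhds x] F := fun x hx => hGF x (hGr x (le_of_eq hx))
  have hGreg : ∀ x, G x = 0 → gradient G x ≠ 0 := fun x hx => by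
    rw [(shape_congr (hGloc x hx)).1]
    exact hreg x (hGz x hx)
  have hL0 : 0 < R0 + 2 := by linarith
  obtain ⟨b, hbdef⟩ : ∃ b, b = R'⁻¹ • w := ⟨_, rfl⟩
  have hbn : ‖b‖ = R'⁻¹ := by
    rw [hbdef, norm_smul, hw, mul_one, Real.norm_of_nonneg (inv_nonneg.2 hR'.le)]
  have hbR : ‖b‖ * R0 < 1 := by
    rw [hbn, inv_mul_lt_iff₀ hR', mul_one]
    exact h1
  have hhom := hom_moebius G hG (R0 + 2) hL0 hGL hGreg R0 hGr b hbR
  have hsm : ContDiff ℝ ∞ (hH G b) := hH_contDiff hG hL0 hGL b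
  have hHreg : ∀ z, hH G b z = 0 → gradient (hH G b) z ≠ 0 := fun z hz =>
    hy_regular hG hL0 hGL hGreg b z hz
  have hHb : Bornology.IsBounded {z | hH G b z ≤ 0} := by
    refine isBounded_iff_forall_norm_le.2 ⟨R0 / (1 - ‖b‖ * R0), fun z hz => ?_⟩
    refine hH_bound hGr hbR (t := 1) ⟨zero_le_one, le_rfl⟩ ?_
    rw [one_smul]
    exact hz
  have hHc : IsCompact {z | hH G b z = 0} := Final_compact hsm.continuous hHb
  obtain ⟨δ1, hδ1, hnum⟩ := hNum (V := V) hR0 h1 h2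
  obtain ⟨v, hv1, hvw, hvK⟩ := exists_regular_near n hn (hH G b) hsm hHreg hHc w hw δ1 hδ1
  -- topology of the zero set
  obtain ⟨φ, ψ, hφ, hψ, hψφ, hφψ, -, himg, -⟩ := Hom.carries hhom hG hsm
  rw [hG0] at himg
  have hMc' : IsConnected {z | hH G b z = 0} := by
    rw [← himg]
    exact hMc.image φ hφ.continuous.continuousOn
  have hMl' : LiftS {z | hH G b z = 0} := by
    rw [← himg]
    let Φ : V ≃ₜ V := ⟨⟨φ, ψ, hψφ, hφψ⟩, hφ.continuous, hψ.continuous⟩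
    exact LiftS.homeo (Φ.image {x | F x = 0}) hMl
  -- the index theorem
  have hball : IsBall (hH G b) := by
    refine ix_T1 (by omega) (hH G b) hsm hHb hHreg hMc' hMl' (-v) (by rw [norm_neg]; exact hv1) ?_
    intro z hz
    have hnz : nrm (hH G b) z = v := by
      obtain ⟨hz0, l, hl, hg⟩ := hz
      have hg' : gradient (hH G b) z = l • v := by rw [hg, smul_neg, neg_neg]
      rw [nrm, hg', norm_smul, hv1, mul_one, Real.norm_of_nonneg hl.le,
        smul_smul, inv_mul_cancel₀ hl.ne', one_smul]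
    have hidx := idx_of_gaussK n hn (hH G b) hsm (-v) (by rw [norm_neg]; exact hv1) z hz
      (hvK z hz.1 hnz)
    refine ⟨_, hidx, ?_⟩
    obtain ⟨N', P, hs, hk⟩ := hidx
    rw [← hk]
    rw [hbdef] at hz hs
    refine hy_index n hn G hG hL0 hGL hGreg hR0 h1 h2 hGr hw hδ hnum hsmall ?_
      (by rw [norm_neg]; exact hv1) (by rw [neg_neg]; exact hvw) hz N' hs.hN hs.neg
    intro x hx hxw
    obtain ⟨e1, e2, e3⟩ := shape_congr (hGloc x hx)
    rw [e2] at hxw ⊢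
    have := hcurv x (hGz x hx) hxw
    unfold nlow at this ⊢
    rw [e3]
    exact this
  have hfin := carries_of_isBall G hG (Hom.trans hhom hball)
  rw [hG0] at hfin
  exact hfin

end Pool.Schoen
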