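import Mathlib

/-! Moebius transformations of a Euclidean space: algebra. -/

set_option autoImplicit false

namespace Pool.Schoen

open scoped RealInnerProductSpace

variable {V : Type*} [NormedAddCommGroup V] [InnerProductSpace ℝ V]

/-- The denominator of the Moebius transformation `hK b`. -/
noncomputable def hD (b z : V) : ℝ := 1 + 2 * ⟪b, z⟫ + ‖b‖ ^ 2 * ‖z‖ ^ 2

/-- The Moebius transformation `z ↦ (z + |z|² b) / (1 + 2 ⟪b, z⟫ + |b|² |z|²)`. -/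
noncomputable def hK (b z : V) : V := (hD b z)⁻¹ • (z + ‖z‖ ^ 2 • b)

theorem hD_ge (b z : V) : (1 - ‖b‖ * ‖z‖) ^ 2 ≤ hD b z := by
  unfold hD
  have h1 : -(‖b‖ * ‖z‖) ≤ ⟪b, z⟫ := (abs_le.1 (abs_real_inner_le_norm b z)).1
  nlinarith

theorem hD_nonneg (b z : V) : 0 ≤ hD b z := (sq_nonneg _).trans (hD_ge b z)

theorem hD_zero (z : V) : hD 0 z = 1 := by simp [hD]

theorem hK_zero (z : V) : hK 0 z = z := by simp [hK, hD_zero]

theorem num_norm_sq (b z : V) : ‖z + ‖z‖ ^ 2 • b‖ ^ 2 = ‖z‖ ^ 2 * hD b z := by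
  rw [@norm_add_sq_real, norm_smul, inner_smul_right, Real.norm_eq_abs, abs_of_nonneg (sq_nonneg _),
    real_inner_comm, hD]
  ring

theorem hK_norm_sq {b z : V} (h : 0 < hD b z) : ‖hK b z‖ ^ 2 = ‖z‖ ^ 2 / hD b z := by
  rw [hK, norm_smul, mul_pow, num_norm_sq, Real.norm_eq_abs, abs_of_nonneg (inv_nonneg.2 h.le)]
  field_simp

theorem hD_inv {b x : V} (h : 0 < hD (-b) x) : hD b (hK (-b) x) = (hD (-b) x)⁻¹ := by
  have h1 := hK_norm_sq h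
  have h2 : ⟪b, hK (-b) x⟫ = (hD (-b) x)⁻¹ * (⟪b, x⟫ - ‖x‖ ^ 2 * ‖b‖ ^ 2) := by
    rw [hK, inner_smul_right, inner_add_right, inner_smul_right, inner_neg_right,
      real_inner_self_eq_norm_sq]
    ring
  have h3 : hD (-b) x = 1 - 2 * ⟪b, x⟫ + ‖b‖ ^ 2 * ‖x‖ ^ 2 := by
    rw [hD, inner_neg_left, norm_neg]
    ring
  have h4 : hD b (hK (-b) x) = 1 + 2 * ((hD (-b) x)⁻¹ * (⟪b, x⟫ - ‖x‖ ^ 2 * ‖b‖ ^ 2)) +
      ‖b‖ ^ 2 * (‖x‖ ^ 2 / hD (-b) x) := by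
    rw [hD, h1, h2]
  rw [h4]
  field_simp
  rw [h3]
  ring

theorem hK_inv {b x : V} (h : 0 < hD (-b) x) : hK b (hK (-b) x) = x := by
  have h1 := hK_norm_sq h
  have h2 := hD_inv h
  rw [hK, h2, inv_inv, h1]
  rw [hK, smul_add, smul_smul, smul_smul, mul_inv_cancel₀ h.ne', one_smul,
    mul_div_cancel₀ _ h.ne', smul_neg, neg_add_cancel_right]

theorem hD_inv' {b x : V} (h : 0 < hD b x) : hD (-b) (hK b x) = (hD b x)⁻¹ := by
  have h1 : 0 < hD (-(-b)) x := by rwa [neg_neg]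
  have h2 := hD_inv h1
  rwa [neg_neg] at h2

theorem hK_inv' {b x : V} (h : 0 < hD b x) : hK (-b) (hK b x) = x := by
  have h1 : 0 < hD (-(-b)) x := by rwa [neg_neg]
  have h2 := hK_inv h1
  rwa [neg_neg] at h2

end Pool.Schoen
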