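import Pool.Agent.H.MP_6c077c_gt.Hy.Alg

/-! Moebius transformations of a Euclidean space: first derivatives. -/

set_option autoImplicit false

namespace Pool.Schoen

open scoped RealInnerProductSpace ContDiff

variable {V : Type*} [NormedAddCommGroup V] [InnerProductSpace ℝ V]

/-- The derivative of `hK b` at `z` in the direction `a`. -/
noncomputable def hA (b z a : V) : V :=
  (hD b z)⁻¹ • (a + (2 * ⟪z, a⟫) • b - (2 * ⟪b, a⟫ + 2 * ‖b‖ ^ 2 * ⟪z, a⟫) • hK b z)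

theorem hA_norm_sq {b z : V} (h : 0 < hD b z) (a : V) :
    ‖hA b z a‖ ^ 2 = ‖a‖ ^ 2 / hD b z ^ 2 := by
  have h1 := hK_norm_sq h
  have h2 : ⟪a, hK b z⟫ = (⟪z, a⟫ + ‖z‖ ^ 2 * ⟪b, a⟫) / hD b z := by
    rw [hK, inner_smul_right, inner_add_right, inner_smul_right, real_inner_comm a z,
      real_inner_comm a b]
    ring
  have h3 : ⟪b, hK b z⟫ = (⟪b, z⟫ + ‖z‖ ^ 2 * ‖b‖ ^ 2) / hD b z := by
    rw [hK, inner_smul_right, inner_add_right, inner_smul_right, real_inner_self_eq_norm_sq]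
    ring
  have h4 : ‖a + (2 * ⟪z, a⟫) • b - (2 * ⟪b, a⟫ + 2 * ‖b‖ ^ 2 * ⟪z, a⟫) • hK b z‖ ^ 2 =
      ‖a‖ ^ 2 := by
    rw [@norm_sub_sq_real, @norm_add_sq_real, inner_add_left, inner_smul_right, inner_smul_right,
      inner_smul_left, inner_smul_right, norm_smul, norm_smul, mul_pow, mul_pow, h1, h2, h3,
      Real.norm_eq_abs, Real.norm_eq_abs, sq_abs, sq_abs, real_inner_comm a b]
    simp only [conj_trivial]
    have h5 : hD b z = 1 + 2 * ⟪b, z⟫ + ‖b‖ ^ 2 * ‖z‖ ^ 2 := rfl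
    have h6 := h.ne'
    field_simp
    rw [h5]
    ring
  rw [hA, norm_smul, mul_pow, h4, Real.norm_eq_abs, sq_abs]
  field_simp

theorem hA_ne {b z : V} (h : 0 < hD b z) {a : V} (ha : a ≠ 0) : hA b z a ≠ 0 := by
  intro h0
  have h1 := hA_norm_sq h a
  rw [h0, norm_zero] at h1
  have h2 : 0 < ‖a‖ := norm_pos_iff.2 ha
  have h3 : 0 < ‖a‖ ^ 2 / hD b z ^ 2 := by positivity
  rw [← h1] at h3
  norm_num at h3

theorem hD_hasDerivAt (b z a : V) (s : ℝ) :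
    HasDerivAt (fun s : ℝ => hD b (z + s • a))
      (2 * ⟪b, a⟫ + 2 * ‖b‖ ^ 2 * ⟪z + s • a, a⟫) s := by
  have h1 : HasDerivAt (fun s : ℝ => z + s • a) a s := by
    simpa using ((hasDerivAt_id s).smul_const a).const_add z
  have h2 : HasDerivAt (fun s : ℝ => ⟪b, z + s • a⟫) ⟪b, a⟫ s := by
    simpa using (hasDerivAt_const s b).inner ℝ h1
  have h3 : HasDerivAt (fun s : ℝ => ‖z + s • a‖ ^ 2) (2 * ⟪z + s • a, a⟫) s := h1.norm_sq
  have h4 : HasDerivAt (fun s : ℝ => 1 + 2 * ⟪b, z + s • a⟫ + ‖b‖ ^ 2 * ‖z + s • a‖ ^ 2)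
      (2 * ⟪b, a⟫ + ‖b‖ ^ 2 * (2 * ⟪z + s • a, a⟫)) s :=
    ((h2.const_mul 2).const_add 1).add (h3.const_mul (‖b‖ ^ 2))
  exact h4.congr_deriv (by ring)

theorem num_hasDerivAt (b z a : V) (s : ℝ) :
    HasDerivAt (fun s : ℝ => z + s • a + ‖z + s • a‖ ^ 2 • b)
      (a + (2 * ⟪z + s • a, a⟫) • b) s := by
  have h1 : HasDerivAt (fun s : ℝ => z + s • a) a s := by
    simpa using ((hasDerivAt_id s).smul_const a).const_add z
  have h3 : HasDerivAt (fun s : ℝ => ‖z + s • a‖ ^ 2) (2 * ⟪z + s • a, a⟫) s := h1.norm_sq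
  exact h1.add (h3.smul_const b)

theorem hK_hasDerivAt (b z a : V) (s : ℝ) (h : 0 < hD b (z + s • a)) :
    HasDerivAt (fun s : ℝ => hK b (z + s • a)) (hA b (z + s • a) a) s := by
  have h1 := (hD_hasDerivAt b z a s).inv h.ne'
  have h2 := h1.smul (num_hasDerivAt b z a s)
  refine h2.congr_deriv ?_
  have h3 := h.ne'
  have e1 : (fun s => hD b (z + s • a))⁻¹ s = (hD b (z + s • a))⁻¹ := rfl
  rw [e1, hA, hK, smul_sub, smul_smul, smul_smul, sub_eq_add_neg, ← neg_smul]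
  congr 2
  field_simp

theorem hD_contDiff (b : V) : ContDiff ℝ ∞ fun p : ℝ × V => hD (p.1 • b) p.2 := by
  have h1 : ContDiff ℝ ∞ fun p : ℝ × V => p.1 • b := contDiff_fst.smul contDiff_const
  have h2 : ContDiff ℝ ∞ fun p : ℝ × V => ⟪p.1 • b, p.2⟫ := h1.inner ℝ contDiff_snd
  have h3 : ContDiff ℝ ∞ fun p : ℝ × V => ‖p.1 • b‖ ^ 2 := h1.norm_sq ℝ
  have h4 : ContDiff ℝ ∞ fun p : ℝ × V => ‖p.2‖ ^ 2 := contDiff_snd.norm_sq ℝ
  exact (contDiff_const.add (contDiff_const.mul h2)).add (h3.mul h4)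

theorem hK_contDiffAt (b : V) (p : ℝ × V) (h : 0 < hD (p.1 • b) p.2) :
    ContDiffAt ℝ ∞ (fun p : ℝ × V => hK (p.1 • b) p.2) p := by
  have h1 : ContDiff ℝ ∞ fun p : ℝ × V => p.1 • b := contDiff_fst.smul contDiff_const
  have h4 : ContDiff ℝ ∞ fun p : ℝ × V => ‖p.2‖ ^ 2 := contDiff_snd.norm_sq ℝ
  have h5 : ContDiff ℝ ∞ fun p : ℝ × V => p.2 + ‖p.2‖ ^ 2 • p.1 • b :=
    contDiff_snd.add (h4.smul h1)
  exact ((hD_contDiff b).contDiffAt.inv h.ne').smul h5.contDiffAt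

end Pool.Schoen
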