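import Pool.Agent.H.MP_6c077c_gt.Hy.Der
import Pool.Agent.H.MP_6c077c_gt.Ix.HomB

/-! Moebius images of a domain are homotopic to the domain. -/

set_option autoImplicit false

namespace Pool.Schoen

open Filter Set
open scoped RealInnerProductSpace ContDiff Topology

variable {V : Type*} [NormedAddCommGroup V] [InnerProductSpace ℝ V]

/-- The function `F ∘ hK b`, with the value `1` at the pole of `hK b`. -/
noncomputable def hH (F : V → ℝ) (b z : V) : ℝ := if 0 < hD b z then F (hK b z) else 1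

theorem hH_of_pos {F : V → ℝ} {b z : V} (h : 0 < hD b z) : hH F b z = F (hK b z) := if_pos h

theorem hH_zero (F : V → ℝ) : hH F 0 = F := by
  funext z
  rw [hH_of_pos (by rw [hD_zero]; exact one_pos), hK_zero]

theorem hH_nonpos {F : V → ℝ} {b z : V} (h : hH F b z ≤ 0) : 0 < hD b z ∧ F (hK b z) ≤ 0 := by
  unfold hH at h
  split_ifs at h with h1
  · exact ⟨h1, h⟩
  · linarith

theorem hH_eq_zero {F : V → ℝ} {b z : V} (h : hH F b z = 0) : 0 < hD b z ∧ F (hK b z) = 0 := by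
  unfold hH at h
  split_ifs at h with h1
  · exact ⟨h1, h⟩
  · norm_num at h

theorem hH_one {F : V → ℝ} {L : ℝ} (hL0 : 0 < L) (hL : ∀ z, L ≤ ‖z‖ → F z = 1) {b z : V}
    (h : L ^ 2 * hD b z < ‖z‖ ^ 2) : hH F b z = 1 := by
  unfold hH
  split_ifs with h1
  · apply hL
    have h2 := hK_norm_sq h1
    have h3 : L ^ 2 < ‖hK b z‖ ^ 2 := by
      rw [h2, lt_div_iff₀ h1]
      exact h
    exact (lt_of_pow_lt_pow_left₀ 2 (norm_nonneg _) h3).le
  · rfl

theorem hH_contDiffAt {F : V → ℝ} (hF : ContDiff ℝ ∞ F) {L : ℝ} (hL0 : 0 < L)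
    (hL : ∀ z, L ≤ ‖z‖ → F z = 1) (b : V) (p : ℝ × V) :
    ContDiffAt ℝ ∞ (fun p : ℝ × V => hH F (p.1 • b) p.2) p := by
  have hDc : Continuous fun p : ℝ × V => hD (p.1 • b) p.2 := (hD_contDiff b).continuous
  rcases (hD_nonneg (p.1 • b) p.2).lt_or_eq with h | h
  · have h1 : (fun p : ℝ × V => hH F (p.1 • b) p.2) =ᶠ[𝓝 p]
        fun p : ℝ × V => F (hK (p.1 • b) p.2) := by
      filter_upwards [continuousAt_const.eventually_lt hDc.continuousAt h] with q hq
      exact hH_of_pos hq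
    exact ((hF.contDiffAt).comp p (hK_contDiffAt b p h)).congr_of_eventuallyEq h1
  · have h0 : p.2 ≠ 0 := by
      intro h0
      rw [h0, hD] at h
      simp at h
    have h1 : L ^ 2 * hD (p.1 • b) p.2 < ‖p.2‖ ^ 2 := by
      rw [← h, mul_zero]
      have := norm_pos_iff.2 h0
      positivity
    have h2 : (fun p : ℝ × V => hH F (p.1 • b) p.2) =ᶠ[𝓝 p] fun _ => 1 := by
      have h3 : Continuous fun p : ℝ × V => L ^ 2 * hD (p.1 • b) p.2 :=
        continuous_const.mul hDc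
      have h4 : Continuous fun p : ℝ × V => ‖p.2‖ ^ 2 := by fun_prop
      filter_upwards [h3.continuousAt.eventually_lt h4.continuousAt h1] with q hq
      exact hH_one hL0 hL hq
    exact contDiffAt_const.congr_of_eventuallyEq h2

theorem hH_contDiff {F : V → ℝ} (hF : ContDiff ℝ ∞ F) {L : ℝ} (hL0 : 0 < L)
    (hL : ∀ z, L ≤ ‖z‖ → F z = 1) (b : V) : ContDiff ℝ ∞ (hH F b) := by
  have h1 : ContDiff ℝ ∞ fun p : ℝ × V => hH F (p.1 • b) p.2 :=
    contDiff_iff_contDiffAt.2 fun p => hH_contDiffAt hF hL0 hL b p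
  have h2 : ContDiff ℝ ∞ fun z : V => ((1 : ℝ), z) := contDiff_const.prodMk contDiff_id
  have h3 := h1.comp h2
  have h4 : ((fun p : ℝ × V => hH F (p.1 • b) p.2) ∘ fun z : V => ((1 : ℝ), z)) = hH F b := by
    funext z
    simp
  rwa [h4] at h3

/-- The size of the zeros. -/
theorem hH_bound {F : V → ℝ} {r : ℝ} (hr : ∀ x, F x ≤ 0 → ‖x‖ ≤ r) {b : V} (hb : ‖b‖ * r < 1)
    {t : ℝ} (ht : t ∈ Icc (0 : ℝ) 1) {z : V} (hz : hH F (t • b) z ≤ 0) :
    ‖z‖ ≤ r / (1 - ‖b‖ * r) := by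
  obtain ⟨h1, h2⟩ := hH_nonpos hz
  have h3 := hr _ h2
  have hr0 : 0 ≤ r := (norm_nonneg _).trans h3
  have h4 := hK_inv' h1
  have h5 := hD_inv' h1
  have h6 : 0 < hD (-(t • b)) (hK (t • b) z) := by
    rw [h5]
    exact inv_pos.2 h1
  have h7 := hK_norm_sq h6
  rw [h4] at h7
  have h8 := hD_ge (-(t • b)) (hK (t • b) z)
  have h9 : ‖-(t • b)‖ ≤ ‖b‖ := by
    rw [norm_neg, norm_smul, Real.norm_eq_abs, abs_of_nonneg ht.1]
    exact mul_le_of_le_one_left (norm_nonneg _) ht.2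
  have h10 : ‖-(t • b)‖ * ‖hK (t • b) z‖ ≤ ‖b‖ * r :=
    mul_le_mul h9 h3 (norm_nonneg _) (norm_nonneg _)
  have h11 : 0 < 1 - ‖b‖ * r := by linarith
  have h12 : (1 - ‖b‖ * r) ^ 2 ≤ hD (-(t • b)) (hK (t • b) z) := by
    refine le_trans ?_ h8
    exact pow_le_pow_left₀ h11.le (by linarith) 2
  have h13 : ‖z‖ ^ 2 ≤ (r / (1 - ‖b‖ * r)) ^ 2 := by
    rw [h7, div_pow]
    exact div_le_div₀ (by positivity) (pow_le_pow_left₀ (norm_nonneg _) h3 2) (by positivity) h12
  exact (pow_le_pow_iff_left₀ (norm_nonneg _) (by positivity) two_ne_zero).1 h13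

variable [FiniteDimensional ℝ V]

theorem hK_fderiv_apply {b z : V} (h : 0 < hD b z) (a : V) :
    fderiv ℝ (hK b) z a = hA b z a := by
  have h1 : ContDiffAt ℝ ∞ (hK b) z := by
    have h2 : 0 < hD (((1 : ℝ), z).1 • b) ((1 : ℝ), z).2 := by simpa using h
    have h3 := (hK_contDiffAt b ((1 : ℝ), z) h2)
    have h4 : ContDiffAt ℝ ∞ (fun z : V => ((1 : ℝ), z)) z := contDiffAt_const.prodMk contDiffAt_id
    have h5 := ContDiffAt.comp z h3 h4
    have h6 : ((fun p : ℝ × V => hK (p.1 • b) p.2) ∘ fun z : V => ((1 : ℝ), z)) = hK b := by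
      funext z
      simp
    rwa [h6] at h5
  have h2 : HasFDerivAt (hK b) (fderiv ℝ (hK b) z) z := (h1.differentiableAt (by simp)).hasFDerivAt
  have h3 : HasDerivAt (fun s : ℝ => z + s • a) a 0 := by
    simpa using ((hasDerivAt_id (0 : ℝ)).smul_const a).const_add z
  have h4 : HasDerivAt (fun s : ℝ => hK b (z + s • a)) (fderiv ℝ (hK b) z a) 0 := by
    have h5 : HasFDerivAt (hK b) (fderiv ℝ (hK b) z) (z + (0 : ℝ) • a) := by simpa using h2
    exact h5.comp_hasDerivAt (0 : ℝ) h3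
  have h5 := hK_hasDerivAt b z a 0 (by simpa using h)
  have h6 := h4.unique h5
  simpa using h6

/-- Every vector is a value of the derivative. -/
theorem hA_surj {b z : V} (h : 0 < hD b z) (w : V) : ∃ a, hA b z a = w := by
  have h1 : Function.Injective (fderiv ℝ (hK b) z : V →ₗ[ℝ] V) := by
    rw [← LinearMap.ker_eq_bot, LinearMap.ker_eq_bot']
    intro a ha
    by_contra h0
    apply hA_ne h h0
    rw [← hK_fderiv_apply h]
    exact ha
  obtain ⟨a, ha⟩ := LinearMap.injective_iff_surjective.1 h1 w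
  exact ⟨a, by rw [← hK_fderiv_apply h]; exact ha⟩

theorem hH_line {F : V → ℝ} (hF : ContDiff ℝ ∞ F) {b z : V} (h : 0 < hD b z) (a : V) :
    HasDerivAt (fun s : ℝ => hH F b (z + s • a)) (fderiv ℝ F (hK b z) (hA b z a)) 0 := by
  have h0 : 0 < hD b (z + (0 : ℝ) • a) := by simpa using h
  have h1 := hK_hasDerivAt b z a 0 h0
  have h2 : HasFDerivAt F (fderiv ℝ F (hK b z)) (hK b (z + (0 : ℝ) • a)) := by
    have := (hF.differentiable (by simp) (hK b z)).hasFDerivAt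
    simpa using this
  have h3 := h2.comp_hasDerivAt (0 : ℝ) h1
  have h4 : (fun s : ℝ => hH F b (z + s • a)) =ᶠ[𝓝 0] F ∘ fun s : ℝ => hK b (z + s • a) := by
    have h5 : ContinuousAt (fun s : ℝ => hD b (z + s • a)) 0 :=
      (hD_hasDerivAt b z a 0).continuousAt
    filter_upwards [continuousAt_const.eventually_lt h5 h0] with s hs
    exact hH_of_pos hs
  refine (h3.congr_of_eventuallyEq h4).congr_deriv ?_
  simp

/-- Moebius images are homotopic to the domain. -/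
theorem hom_moebius (F : V → ℝ) (hF : ContDiff ℝ ∞ F) (L : ℝ) (hL0 : 0 < L)
    (hL : ∀ z, L ≤ ‖z‖ → F z = 1) (hreg : ∀ x, F x = 0 → gradient F x ≠ 0) (r : ℝ)
    (hr : ∀ x, F x ≤ 0 → ‖x‖ ≤ r) (b : V) (hb : ‖b‖ * r < 1) : Hom F (hH F b) := by
  have hG : ContDiff ℝ ∞ fun p : ℝ × V => hH F (p.1 • b) p.2 :=
    contDiff_iff_contDiffAt.2 fun p => hH_contDiffAt hF hL0 hL b p
  refine ⟨fun t z => hH F (t • b) z, hG.continuous, ?_, ?_, ?_, ?_⟩
  · funext z
    beta_reduce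
    rw [zero_smul, hH_zero]
  · funext z
    beta_reduce
    rw [one_smul]
  · exact ⟨r / (1 - ‖b‖ * r), fun t ht z hz => hH_bound hr hb ht (le_of_eq hz)⟩
  · intro t ht z hz
    obtain ⟨h1, h2⟩ := hH_eq_zero hz
    obtain ⟨a, ha⟩ := hA_surj h1 (-gradient F (hK (t • b) z))
    refine ⟨a, (desc_smooth (G := fun p : ℝ × V => hH F (p.1 • b) p.2)
      (hG.of_le (by norm_cast)).contDiffAt ?_).mono nhdsWithin_le_nhds⟩
    have h3 : HasFDerivAt (fun p : ℝ × V => hH F (p.1 • b) p.2)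
        (fderiv ℝ (fun p : ℝ × V => hH F (p.1 • b) p.2) (t, z)) (t, z) :=
      (hG.differentiable (by simp) (t, z)).hasFDerivAt
    have h4 : HasDerivAt (fun s : ℝ => (t, z + s • a)) ((0 : ℝ), a) 0 := by
      have h5 : HasDerivAt (fun s : ℝ => z + s • a) a 0 := by
        simpa using ((hasDerivAt_id (0 : ℝ)).smul_const a).const_add z
      exact (hasDerivAt_const (0 : ℝ) t).prodMk h5
    have h5 : HasDerivAt (fun s : ℝ => hH F (t • b) (z + s • a))
        (fderiv ℝ (fun p : ℝ × V => hH F (p.1 • b) p.2) (t, z) (0, a)) 0 := by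
      have h6 : HasFDerivAt (fun p : ℝ × V => hH F (p.1 • b) p.2)
          (fderiv ℝ (fun p : ℝ × V => hH F (p.1 • b) p.2) (t, z)) (t, z + (0 : ℝ) • a) := by
        simpa using h3
      exact h6.comp_hasDerivAt (0 : ℝ) h4
    rw [h5.unique (hH_line hF h1 a), ha]
    have h6 : fderiv ℝ F (hK (t • b) z) (gradient F (hK (t • b) z)) =
        ⟪gradient F (hK (t • b) z), gradient F (hK (t • b) z)⟫ :=
      (InnerProductSpace.toDual_symm_apply (𝕜 := ℝ)).symm
    rw [map_neg, h6, real_inner_self_eq_norm_sq]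
    have := norm_pos_iff.2 (hreg _ h2)
    nlinarith

end Pool.Schoen
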