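import Pool.Agent.H.MP_6c077c_gt.Hy.Der

/-! Moebius transformations of a Euclidean space: normals. -/

set_option autoImplicit false

namespace Pool.Schoen

open scoped RealInnerProductSpace

variable {V : Type*} [NormedAddCommGroup V] [InnerProductSpace ℝ V]

/-- The transpose of the derivative. -/
theorem hA_inner {b z : V} (N a : V) :
    ⟪N, hA b z a⟫ = (hD b z)⁻¹ *
      ⟪N + (2 * ⟪N, b - ‖b‖ ^ 2 • hK b z⟫) • z - (2 * ⟪N, hK b z⟫) • b, a⟫ := by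
  rw [hA, inner_smul_right, inner_sub_right, inner_add_right, inner_smul_right, inner_smul_right,
    inner_sub_left, inner_add_left, inner_smul_left, inner_smul_left, inner_sub_right,
    inner_smul_right]
  simp only [conj_trivial]
  ring

theorem hN_eps {b z N e : V} (hb : b ≠ 0) (h : 0 < hD b z) (hN : ‖N‖ = 1) (he : ‖e‖ = 1)
    {l : ℝ} (hl : 0 < l) (hNe : ∀ a, ⟪N, hA b z a⟫ = -(l * ⟪e, a⟫)) {T : ℝ}
    (hT : T = 2 * hD b z * ⟪N, b - ‖b‖ ^ 2 • hK b z⟫) {ε : V}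
    (hε : ε = T • ((‖b‖ ^ 2)⁻¹ • b - hK b z) - N) :
    ‖ε‖ = 1 ∧ e = ε - (2 * ⟪b, ε⟫ / ‖b‖ ^ 2) • b := by
  obtain ⟨x, hx⟩ : ∃ x, x = hK b z := ⟨_, rfl⟩
  obtain ⟨D, hD0⟩ : ∃ D, D = hD b z := ⟨_, rfl⟩
  have hb0 : 0 < ‖b‖ := norm_pos_iff.2 hb
  have hDx : hD (-b) x = D⁻¹ := by rw [hx, hD0]; exact hD_inv' h
  have hz : z = D • (x - ‖x‖ ^ 2 • b) := by
    have h1 := hK_inv' h
    rw [← hx] at h1
    rw [← h1, hK, hDx, inv_inv, smul_neg, sub_eq_add_neg]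
  have hDpos : 0 < D := by rw [hD0]; exact h
  rw [← hx, ← hD0] at hT
  rw [← hx] at hε
  have hDx' : 1 - 2 * ⟪b, x⟫ + ‖b‖ ^ 2 * ‖x‖ ^ 2 = D⁻¹ := by
    rw [← hDx, hD, inner_neg_left, norm_neg]
    ring
  have hT' : T = 2 * D * (⟪b, N⟫ - ‖b‖ ^ 2 * ⟪x, N⟫) := by
    rw [hT, inner_sub_right, inner_smul_right, real_inner_comm b N, real_inner_comm x N]
  have hTD : T * (1 - 2 * ⟪b, x⟫ + ‖b‖ ^ 2 * ‖x‖ ^ 2) = 2 * (⟪b, N⟫ - ‖b‖ ^ 2 * ⟪x, N⟫) := by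
    rw [hDx', hT']
    field_simp
  -- the norm of `ε`
  have hεn : ‖ε‖ ^ 2 = 1 := by
    rw [hε, @norm_sub_sq_real, norm_smul, mul_pow, @norm_sub_sq_real, norm_smul, inner_smul_left,
      inner_smul_left, inner_sub_left, inner_smul_left, hN, Real.norm_eq_abs, Real.norm_eq_abs,
      sq_abs]
    simp only [conj_trivial]
    rw [abs_of_pos (by positivity)]
    have h2 : ‖b‖ ^ 2 ≠ 0 := by positivity
    field_simp
    have h3 : T * (T * (1 - 2 * ⟪b, x⟫ + ‖b‖ ^ 2 * ‖x‖ ^ 2)) =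
        T * (2 * (⟪b, N⟫ - ‖b‖ ^ 2 * ⟪x, N⟫)) := by rw [hTD]
    nlinarith [h3]
  have hε1 : ‖ε‖ = 1 := by
    rwa [pow_eq_one_iff_of_nonneg (norm_nonneg _) two_ne_zero] at hεn
  have hbε : ⟪b, ε⟫ = T * (1 - ⟪b, x⟫) - ⟪b, N⟫ := by
    rw [hε, inner_sub_right, inner_smul_right, inner_sub_right, inner_smul_right,
      real_inner_self_eq_norm_sq]
    field_simp
  -- the transpose applied to the normal
  have hQ : N + (2 * ⟪N, b - ‖b‖ ^ 2 • x⟫) • z - (2 * ⟪N, x⟫) • b =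
      -(ε - (2 * ⟪b, ε⟫ / ‖b‖ ^ 2) • b) := by
    have h4 : (2 * ⟪N, b - ‖b‖ ^ 2 • x⟫) • z = T • (x - ‖x‖ ^ 2 • b) := by
      rw [hz, smul_smul, hT]
      congr 1
      ring
    rw [h4]
    have h5 : (-(T * ‖x‖ ^ 2) - 2 * ⟪N, x⟫ + T * (‖b‖ ^ 2)⁻¹ - 2 * ⟪b, ε⟫ / ‖b‖ ^ 2) = 0 := by
      rw [hbε, real_inner_comm x N]
      field_simp
      linarith [hTD]
    have h6 : N + T • (x - ‖x‖ ^ 2 • b) - (2 * ⟪N, x⟫) • b +
        (ε - (2 * ⟪b, ε⟫ / ‖b‖ ^ 2) • b) =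
        (-(T * ‖x‖ ^ 2) - 2 * ⟪N, x⟫ + T * (‖b‖ ^ 2)⁻¹ - 2 * ⟪b, ε⟫ / ‖b‖ ^ 2) • b := by
      have hN' : T • ((‖b‖ ^ 2)⁻¹ • b - x) - ε = N := by
        rw [hε]
        abel
      have h7 : ∀ c d : ℝ, N + T • (x - ‖x‖ ^ 2 • b) - c • b + (ε - d • b) =
          (-(T * ‖x‖ ^ 2) - c + T * (‖b‖ ^ 2)⁻¹ - d) • b := by
        intro c d
        calc N + T • (x - ‖x‖ ^ 2 • b) - c • b + (ε - d • b) =
            T • ((‖b‖ ^ 2)⁻¹ • b - x) - ε + T • (x - ‖x‖ ^ 2 • b) - c • b + (ε - d • b) := by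
              rw [hN']
          _ = _ := by module
      exact h7 _ _
    rw [h5, zero_smul] at h6
    exact eq_neg_of_add_eq_zero_left h6
  have hr : ‖ε - (2 * ⟪b, ε⟫ / ‖b‖ ^ 2) • b‖ = 1 := by
    have h7 : ‖ε - (2 * ⟪b, ε⟫ / ‖b‖ ^ 2) • b‖ ^ 2 = 1 := by
      rw [@norm_sub_sq_real, norm_smul, mul_pow, inner_smul_right, Real.norm_eq_abs, sq_abs, hεn,
        real_inner_comm b ε]
      field_simp
      ring
    rwa [pow_eq_one_iff_of_nonneg (norm_nonneg _) two_ne_zero] at h7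
  have he' : (D * l) • e = ε - (2 * ⟪b, ε⟫ / ‖b‖ ^ 2) • b := by
    refine ext_inner_right ℝ fun a => ?_
    have h8 := hA_inner (b := b) (z := z) N a
    rw [← hx, ← hD0, hQ, hNe a, inner_neg_left] at h8
    rw [inner_smul_left]
    simp only [conj_trivial]
    field_simp at h8
    linarith
  have h9 := congrArg norm he'
  rw [hr, norm_smul, he, mul_one, Real.norm_eq_abs, abs_of_pos (by positivity)] at h9
  rw [h9, one_smul] at he'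
  exact ⟨hε1, he'⟩

end Pool.Schoen
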