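import Mathlib

/-! Tangent spheres in a ball: inequalities. -/

set_option autoImplicit false

namespace Pool.Schoen

open scoped RealInnerProductSpace

variable {V : Type*} [NormedAddCommGroup V] [InnerProductSpace ℝ V]

/-- The radius of the sphere on the side of `N` which is tangent at `x` and internally tangent to
the sphere of radius `R` about the origin. -/
noncomputable def hRad (R : ℝ) (N x : V) : ℝ := (R ^ 2 - ‖x‖ ^ 2) / (2 * (R + ⟪x, N⟫))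

/-- The direction of the point where this sphere touches the sphere of radius `R`. -/
noncomputable def hGau (R : ℝ) (N x : V) : V :=
  ‖x + hRad R N x • N‖⁻¹ • (x + hRad R N x • N)

theorem hRad_facts {R R0 : ℝ} (h0 : R0 < R) {N x : V} (hN : ‖N‖ = 1) (hx : ‖x‖ ≤ R0) :
    0 < R + ⟪x, N⟫ ∧ 0 < hRad R N x ∧ hRad R N x ≤ (R + R0) / 2 ∧
      2 * hRad R N x * (R + ⟪x, N⟫) = R ^ 2 - ‖x‖ ^ 2 ∧
      ‖x + hRad R N x • N‖ = R - hRad R N x := by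
  have hx0 := norm_nonneg x
  have h1 : -‖x‖ ≤ ⟪x, N⟫ := by
    have := (abs_le.1 (abs_real_inner_le_norm x N)).1
    rwa [hN, mul_one] at this
  have h2 : 0 < R + ⟪x, N⟫ := by linarith
  have h3 : 0 < R ^ 2 - ‖x‖ ^ 2 := by nlinarith
  have h4 : 0 < hRad R N x := by unfold hRad; positivity
  have h5 : 2 * hRad R N x * (R + ⟪x, N⟫) = R ^ 2 - ‖x‖ ^ 2 := by
    unfold hRad
    field_simp
  have h6 : hRad R N x ≤ (R + R0) / 2 := by
    have h7 : hRad R N x ≤ (R + ‖x‖) / 2 := by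
      unfold hRad
      rw [div_le_div_iff₀ (by positivity) two_pos]
      nlinarith
    linarith
  refine ⟨h2, h4, h6, h5, ?_⟩
  have h7 : ‖x + hRad R N x • N‖ ^ 2 = (R - hRad R N x) ^ 2 := by
    rw [@norm_add_sq_real, norm_smul, mul_pow, inner_smul_right, hN, Real.norm_eq_abs, sq_abs]
    nlinarith [h5]
  have h8 : 0 ≤ R - hRad R N x := by linarith
  exact (pow_left_inj₀ (norm_nonneg _) h8 two_ne_zero).1 h7

/-- Existence of the neighbourhood of directions. -/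
theorem hNum {R0 R' R : ℝ} (hR0 : 0 ≤ R0) (h1 : R0 < R') (h2 : R' < R) :
    ∃ δ : ℝ, 0 < δ ∧ ∀ (w x N ε : V) (T : ℝ), ‖w‖ = 1 → ‖x‖ ≤ R0 → ‖N‖ = 1 → ‖ε‖ = 1 →
      T • (R' • w - x) = N + ε → T * ‖R' • w - x‖ ^ 2 = 2 * ⟪N, R' • w - x⟫ → ‖ε - w‖ < δ →
      0 < T ∧ 2 * (R + ⟪x, N⟫) < T * (R ^ 2 - ‖x‖ ^ 2) := by
  have hR' : 0 < R' := hR0.trans_lt h1
  have hR : 0 < R := hR'.trans h2
  have hg : 0 < 1 / (R0 + R') - 1 / (R + R') := by
    rw [sub_pos]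
    exact one_div_lt_one_div_of_lt (by linarith) (by linarith)
  have hd1 : 0 < R' - R0 := by linarith
  have hd2 : 0 < R - R' := by linarith
  have hC : 0 < 1 / (R' - R0) + R' / ((R + R') * (R - R')) := by positivity
  refine ⟨(1 / (R0 + R') - 1 / (R + R')) / (1 / (R' - R0) + R' / ((R + R') * (R - R'))),
    div_pos hg hC, ?_⟩
  intro w x N ε T hw hx hN hε hT1 hT2 hδ
  rw [lt_div_iff₀ hC] at hδ
  obtain ⟨y, hy⟩ : ∃ y, y = R' • w - x := ⟨_, rfl⟩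
  obtain ⟨d, hd⟩ : ∃ d, d = ‖y‖ := ⟨_, rfl⟩
  obtain ⟨s, hs⟩ : ∃ s, s = ‖ε - w‖ := ⟨_, rfl⟩
  rw [← hs] at hδ
  rw [← hy, ← hd] at hT2
  rw [← hy] at hT1
  have hs0 : 0 ≤ s := by rw [hs]; exact norm_nonneg _
  have hx0 := norm_nonneg x
  -- the distance
  have hdge : R' - R0 ≤ d := by
    have h3 : ‖R' • w‖ - ‖x‖ ≤ ‖R' • w - x‖ := norm_sub_norm_le _ _
    rw [norm_smul, hw, mul_one, Real.norm_eq_abs, abs_of_pos hR', ← hy, ← hd] at h3
    linarith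
  have hd0 : 0 < d := by linarith
  have hτ : |⟪w, x⟫| ≤ R0 := by
    have := abs_real_inner_le_norm w x
    rw [hw, one_mul] at this
    linarith
  have hd2' : d ^ 2 = R' ^ 2 - 2 * R' * ⟪w, x⟫ + ‖x‖ ^ 2 := by
    rw [hd, hy, @norm_sub_sq_real, norm_smul, mul_pow, inner_smul_left, hw, Real.norm_eq_abs,
      sq_abs]
    simp only [conj_trivial]
    ring
  have hwy : ⟪w, y⟫ = R' - ⟪w, x⟫ := by
    rw [hy, inner_sub_right, inner_smul_right, real_inner_self_eq_norm_sq, hw]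
    ring
  have hTε : T * d ^ 2 = 2 * ⟪ε, y⟫ := by
    have h3 : ⟪T • y, y⟫ = ⟪N + ε, y⟫ := by rw [hT1]
    rw [inner_smul_left, inner_add_left, real_inner_self_eq_norm_sq, ← hd] at h3
    simp only [conj_trivial] at h3
    linarith
  have hεy : ⟪w, y⟫ - s * d ≤ ⟪ε, y⟫ := by
    have h3 := (abs_le.1 (abs_real_inner_le_norm (ε - w) y)).1
    rw [inner_sub_left, ← hs, ← hd] at h3
    linarith
  -- lower bound for `T`
  have hwy2 : d ^ 2 ≤ (R0 + R') * ⟪w, y⟫ := by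
    rw [hwy, hd2']
    have h3 := (abs_le.1 hτ)
    nlinarith [mul_nonneg hd1.le (by linarith [h3.1] : 0 ≤ R0 + ⟪w, x⟫),
      mul_self_le_mul_self hx0 hx]
  have hTlow : 2 / (R0 + R') - 2 * s / (R' - R0) ≤ T := by
    have h3 : d ^ 2 / (R0 + R') ≤ ⟪w, y⟫ := by
      rw [div_le_iff₀ (by linarith)]
      linarith
    have h4 : s * d ≤ s * d ^ 2 / (R' - R0) := by
      rw [le_div_iff₀ hd1]
      nlinarith [mul_nonneg hs0 hd0.le, mul_nonneg (mul_nonneg hs0 hd0.le) (sub_nonneg.2 hdge)]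
    have h5 : (2 / (R0 + R') - 2 * s / (R' - R0)) * d ^ 2 ≤ T * d ^ 2 := by
      rw [hTε]
      have : (2 / (R0 + R') - 2 * s / (R' - R0)) * d ^ 2 =
          2 * (d ^ 2 / (R0 + R') - s * d ^ 2 / (R' - R0)) := by ring
      rw [this]
      linarith
    exact le_of_mul_le_mul_right h5 (by positivity)
  -- the main inequality
  have hwε : 1 - s ≤ ⟪w, ε⟫ := by
    have h3 := (abs_le.1 (abs_real_inner_le_norm w (ε - w))).1
    rw [hw, one_mul, ← hs, inner_sub_right, real_inner_self_eq_norm_sq, hw] at h3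
    linarith
  have hTbig : 2 * (R - R' + R' * s) < T * ((R - R') * (R + R')) := by
    have h3 : 2 * (R - R' + R' * s) / ((R - R') * (R + R')) < T := by
      refine lt_of_lt_of_le ?_ hTlow
      have h4 : 2 * (R - R' + R' * s) / ((R - R') * (R + R')) =
          2 * (1 / (R + R')) + 2 * (s * (R' / ((R + R') * (R - R')))) := by
        field_simp
      have h5 : 2 / (R0 + R') - 2 * s / (R' - R0) =
          2 * (1 / (R0 + R')) - 2 * (s * (1 / (R' - R0))) := by ring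
      rw [h4, h5]
      linarith
    rwa [div_lt_iff₀ (by positivity)] at h3
  have hTpos : 0 < T := by
    have h3 : 0 < 2 * (R - R' + R' * s) := by positivity
    have h4 : 0 < T * ((R - R') * (R + R')) := h3.trans hTbig
    exact (pos_iff_pos_of_mul_pos h4).2 (by positivity)
  refine ⟨hTpos, ?_⟩
  -- `x + N / T = q - ε / T`
  have hxN : x + T⁻¹ • N = R' • w - T⁻¹ • ε := by
    have h3 : y = T⁻¹ • (N + ε) := by
      rw [← hT1, smul_smul, inv_mul_cancel₀ hTpos.ne', one_smul]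
    rw [smul_add] at h3
    have h4 : R' • w = x + y := by rw [hy]; abel
    rw [h4, h3]
    abel
  have hsq : ‖x + T⁻¹ • N‖ ^ 2 = ‖R' • w - T⁻¹ • ε‖ ^ 2 := by rw [hxN]
  rw [@norm_add_sq_real, @norm_sub_sq_real, norm_smul, norm_smul, norm_smul, mul_pow, mul_pow,
    mul_pow, inner_smul_right, inner_smul_right, inner_smul_left, hN, hε, hw, Real.norm_eq_abs,
    Real.norm_eq_abs, sq_abs, sq_abs] at hsq
  simp only [conj_trivial] at hsq
  have h6 : ‖x‖ ^ 2 * T + 2 * ⟪x, N⟫ = R' ^ 2 * T - 2 * (R' * ⟪w, ε⟫) := by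
    have h7 : ‖x‖ ^ 2 + 2 * (T⁻¹ * ⟪x, N⟫) = R' ^ 2 - 2 * (T⁻¹ * (R' * ⟪w, ε⟫)) := by linarith
    have h8 : (‖x‖ ^ 2 + 2 * (T⁻¹ * ⟪x, N⟫)) * T = (R' ^ 2 - 2 * (T⁻¹ * (R' * ⟪w, ε⟫))) * T := by
      rw [h7]
    have hT0 := hTpos.ne'
    have e1 : (‖x‖ ^ 2 + 2 * (T⁻¹ * ⟪x, N⟫)) * T = ‖x‖ ^ 2 * T + 2 * ⟪x, N⟫ := by
      field_simp
    have e2 : (R' ^ 2 - 2 * (T⁻¹ * (R' * ⟪w, ε⟫))) * T = R' ^ 2 * T - 2 * (R' * ⟪w, ε⟫) := by
      field_simp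
    rw [e1, e2] at h8
    exact h8
  have h9 : R' * (1 - s) ≤ R' * ⟪w, ε⟫ := mul_le_mul_of_nonneg_left hwε hR'.le
  nlinarith [h6, h9, hTbig]

/-- The touching point is near `w`. -/
theorem hGau_near {R0 R' R : ℝ} (hR0 : 0 ≤ R0) (h1 : R0 < R') (h2 : R' < R) {w x N ε : V} {T : ℝ}
    (hw : ‖w‖ = 1) (hx : ‖x‖ ≤ R0) (hN : ‖N‖ = 1) (hε : ‖ε‖ = 1)
    (hT1 : T • (R' • w - x) = N + ε) (hT : 0 < T)
    (hT3 : 2 * (R + ⟪x, N⟫) < T * (R ^ 2 - ‖x‖ ^ 2)) :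
    ‖hGau R N x - w‖ ^ 2 ≤ 4 * R * (R - R') / ((R - R0) * R') := by
  obtain ⟨h3, h4, h5, h6, h7⟩ := hRad_facts (h1.trans h2) hN hx
  obtain ⟨ρ, hρ⟩ : ∃ ρ, ρ = hRad R N x := ⟨_, rfl⟩
  have hR' : 0 < R' := hR0.trans_lt h1
  have hρT : T⁻¹ ≤ ρ := by
    rw [inv_le_iff_one_le_mul₀ hT]
    have h8 : 2 * (R + ⟪x, N⟫) ≤ T * (2 * ρ * (R + ⟪x, N⟫)) := by
      rw [hρ, h6]
      exact hT3.le
    have h9 : (R + ⟪x, N⟫) * 1 ≤ (R + ⟪x, N⟫) * (ρ * T) := by nlinarith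
    exact le_of_mul_le_mul_left h9 h3
  unfold hGau
  rw [← hρ] at h4 h5 h6 h7 ⊢
  obtain ⟨c, hc⟩ : ∃ c, c = x + ρ • N := ⟨_, rfl⟩
  rw [← hc] at h7 ⊢
  have hc0 : 0 < R - ρ := by linarith
  have hy : R' • w - x = T⁻¹ • (N + ε) := by
    rw [← hT1, smul_smul, inv_mul_cancel₀ hT.ne', one_smul]
  have hqc : ‖R' • w - c‖ ≤ ρ := by
    have h8 : R' • w - c = T⁻¹ • ε - (ρ - T⁻¹) • N := by
      have h9 : R' • w = x + T⁻¹ • (N + ε) := by rw [← hy]; abel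
      rw [hc, h9]
      module
    rw [h8]
    calc ‖T⁻¹ • ε - (ρ - T⁻¹) • N‖ ≤ ‖T⁻¹ • ε‖ + ‖(ρ - T⁻¹) • N‖ := norm_sub_le _ _
      _ = T⁻¹ + (ρ - T⁻¹) := by
          rw [norm_smul, norm_smul, hε, hN, mul_one, mul_one, Real.norm_eq_abs, Real.norm_eq_abs,
            abs_of_pos (inv_pos.2 hT), abs_of_nonneg (sub_nonneg.2 hρT)]
      _ = ρ := by ring
  have hsq : ‖R' • w - c‖ ^ 2 ≤ ρ ^ 2 := pow_le_pow_left₀ (norm_nonneg _) hqc 2
  rw [@norm_sub_sq_real, norm_smul, mul_pow, hw, inner_smul_left, h7, Real.norm_eq_abs,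
    sq_abs] at hsq
  simp only [conj_trivial] at hsq
  have hn : ‖(‖c‖⁻¹ • c)‖ = 1 := by
    rw [norm_smul, h7, norm_inv, Real.norm_eq_abs, abs_of_pos hc0, inv_mul_cancel₀ hc0.ne']
  rw [@norm_sub_sq_real, hn, hw, inner_smul_left, h7, real_inner_comm w c]
  simp only [conj_trivial]
  have h10 : (R - ρ) * R' * (1 ^ 2 - 2 * ((R - ρ)⁻¹ * ⟪w, c⟫) + 1 ^ 2) ≤ 2 * ρ * (R - R') := by
    have e1 : (R - ρ) * R' * (1 ^ 2 - 2 * ((R - ρ)⁻¹ * ⟪w, c⟫) + 1 ^ 2) =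
        2 * (R - ρ) * R' - 2 * (R' * ⟪w, c⟫) := by
      field_simp
      ring
    rw [e1]
    nlinarith [sq_nonneg (R - R')]
  have h11 : 1 ^ 2 - 2 * ((R - ρ)⁻¹ * ⟪w, c⟫) + 1 ^ 2 ≤ 2 * ρ * (R - R') / ((R - ρ) * R') := by
    rw [le_div_iff₀ (by positivity)]
    linarith
  refine h11.trans ?_
  have h12 : 0 < R - R' := by linarith
  have h13 : 0 < R - R0 := by linarith
  rw [div_le_div_iff₀ (by positivity) (by positivity)]
  have h14 : (R - R0) ≤ 2 * (R - ρ) := by linarith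
  have h15 : ρ ≤ R := by linarith
  have h16 : 0 ≤ (R - R') * R' := by positivity
  calc 2 * ρ * (R - R') * ((R - R0) * R') = 2 * ((R - R') * R') * (ρ * (R - R0)) := by ring
    _ ≤ 2 * ((R - R') * R') * (R * (2 * (R - ρ))) := by
        have h17 : ρ * (R - R0) ≤ R * (2 * (R - ρ)) :=
          mul_le_mul h15 h14 h13.le (by linarith)
        exact mul_le_mul_of_nonneg_left h17 (by positivity)
    _ = 4 * R * (R - R') * ((R - ρ) * R') := by ring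

end Pool.Schoen
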