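import Pool.Agent.H.MP_6c077c_gt.Hy.Sec
import Pool.Agent.H.MP_6c077c_gt.Hy.Nrm
import Pool.Agent.H.MP_6c077c_gt.Hy.Num
import Pool.Agent.H.MP_6c077c_gt.Hy.Spec
import Pool.Agent.H.MP_6c077c_gt.CG.Level

/-! The index of a Moebius image at a point with a nearly radial normal. -/

set_option autoImplicit false

namespace Pool.Schoen

open scoped ContDiff RealInnerProductSpace
open Metric Set

variable {V : Type*} [NormedAddCommGroup V] [InnerProductSpace ℝ V] [FiniteDimensional ℝ V]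

private theorem Idx_grad (F : V → ℝ) (x a : V) : fderiv ℝ F x a = ⟪gradient F x, a⟫ :=
  (InnerProductSpace.toDual_symm_apply (𝕜 := ℝ)).symm

private theorem Idx_nrm (F : V → ℝ) (x : V) (h : gradient F x ≠ 0) :
    gradient F x = ‖gradient F x‖ • nrm F x := by
  have h1 : ‖gradient F x‖ ≠ 0 := norm_ne_zero_iff.2 h
  rw [nrm, smul_smul, mul_inv_cancel₀ h1, one_smul]

theorem hy_index (n : ℕ) (hn : Module.finrank ℝ V = n + 1) (F : V → ℝ) (hF : ContDiff ℝ ∞ F)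
    {L : ℝ} (hL0 : 0 < L) (hL : ∀ z, L ≤ ‖z‖ → F z = 1) (hreg : ∀ x, F x = 0 → gradient F x ≠ 0)
    {R0 R' R : ℝ} (hR0 : 0 ≤ R0) (h1 : R0 < R') (h2 : R' < R) (hr : ∀ x, F x ≤ 0 → ‖x‖ ≤ R0)
    {w : V} (hw : ‖w‖ = 1) {δ δ1 : ℝ} (hδ : 0 < δ)
    (hnum : ∀ (w x N ε : V) (T : ℝ), ‖w‖ = 1 → ‖x‖ ≤ R0 → ‖N‖ = 1 → ‖ε‖ = 1 →
      T • (R' • w - x) = N + ε → T * ‖R' • w - x‖ ^ 2 = 2 * ⟪N, R' • w - x⟫ → ‖ε - w‖ < δ1 →
      0 < T ∧ 2 * (R + ⟪x, N⟫) < T * (R ^ 2 - ‖x‖ ^ 2))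
    (hsmall : 4 * R * (R - R') / ((R - R0) * R') < δ ^ 2)
    (hcurv : ∀ x, F x = 0 → ‖hGau R (nrm F x) x - w‖ < δ →
      nlow F x (hRad R (nrm F x) x)⁻¹ ≤ 1)
    {e : V} (he : ‖e‖ = 1) (hew : ‖-e - w‖ < δ1) {z : V} (hz : Inward (hH F (R'⁻¹ • w)) e z)
    (N' : Submodule ℝ V) (hNe : ∀ a ∈ N', ⟪a, e⟫ = 0)
    (hneg : ∀ a ∈ N', a ≠ 0 → fderiv ℝ (fderiv ℝ (hH F (R'⁻¹ • w))) z a a < 0) :
    Module.finrank ℝ N' ≤ 1 := by
  have hR' : 0 < R' := hR0.trans_lt h1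
  have hR : 0 < R := hR'.trans h2
  obtain ⟨b, hbd⟩ : ∃ b, b = R'⁻¹ • w := ⟨_, rfl⟩
  rw [← hbd] at hz hneg
  have hbn : ‖b‖ = R'⁻¹ := by
    rw [hbd, norm_smul, hw, mul_one, Real.norm_of_nonneg (inv_nonneg.2 hR'.le)]
  have hb0 : b ≠ 0 := by
    rw [← norm_pos_iff, hbn]
    exact inv_pos.2 hR'
  have hbw : (‖b‖ ^ 2)⁻¹ • b = R' • w := by
    rw [hbn, hbd, smul_smul]
    congr 1
    field_simp
  obtain ⟨hz0, l, hl, hg⟩ := hz
  obtain ⟨hD0, hFx⟩ := hH_eq_zero hz0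
  obtain ⟨x, hx⟩ : ∃ x, x = hK b z := ⟨_, rfl⟩
  rw [← hx] at hFx
  have hgx := hreg x hFx
  obtain ⟨g, hgd⟩ : ∃ g, g = ‖gradient F x‖ := ⟨_, rfl⟩
  have hg0 : 0 < g := by rw [hgd]; exact norm_pos_iff.2 hgx
  obtain ⟨N, hN⟩ : ∃ N, N = nrm F x := ⟨_, rfl⟩
  have hN1 : ‖N‖ = 1 := by rw [hN]; exact norm_nrm F x hgx
  have hgN : gradient F x = g • N := by rw [hgd, hN]; exact Idx_nrm F x hgx
  have hF1 : ∀ a, fderiv ℝ F x a = g * ⟪N, a⟫ := fun a => by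
    rw [Idx_grad, hgN, real_inner_smul_left]
  have hNe' : ∀ a, ⟪N, hA b z a⟫ = -((l / g) * ⟪e, a⟫) := by
    intro a
    have h3 := hH_first hF hL0 hL hD0 a
    rw [Idx_grad, hg, inner_neg_left, real_inner_smul_left, ← hx, hF1] at h3
    have h4 : ⟪N, hA b z a⟫ = -(l * ⟪e, a⟫) / g := by
      rw [eq_div_iff hg0.ne']
      linarith
    rw [h4]
    field_simp
  obtain ⟨T, hT⟩ : ∃ T, T = 2 * hD b z * ⟪N, b - ‖b‖ ^ 2 • hK b z⟫ := ⟨_, rfl⟩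
  obtain ⟨ε, hε⟩ : ∃ ε, ε = T • ((‖b‖ ^ 2)⁻¹ • b - hK b z) - N := ⟨_, rfl⟩
  obtain ⟨hε1, hee⟩ := hN_eps hb0 hD0 hN1 he (div_pos hl hg0) hNe' hT hε
  rw [hbw, ← hx] at hε
  have hT1 : T • (R' • w - x) = N + ε := by
    rw [hε]
    abel
  have hbb : b - ‖b‖ ^ 2 • x = ‖b‖ ^ 2 • (R' • w - x) := by
    rw [← hbw, smul_sub, smul_smul, mul_inv_cancel₀, one_smul]
    have := norm_pos_iff.2 hb0
    positivity
  have hDx : ‖b‖ ^ 2 * ‖R' • w - x‖ ^ 2 = (hD b z)⁻¹ := by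
    have h3 := hD_inv' hD0
    rw [← h3, ← hx, hD, ← hbw, @norm_sub_sq_real, inner_neg_left, norm_neg, real_inner_smul_left,
      norm_smul, Real.norm_of_nonneg (by positivity)]
    have := norm_pos_iff.2 hb0
    field_simp
    ring
  have hT2 : T * ‖R' • w - x‖ ^ 2 = 2 * ⟪N, R' • w - x⟫ := by
    rw [hT, ← hx, hbb, real_inner_smul_right]
    calc 2 * hD b z * (‖b‖ ^ 2 * ⟪N, R' • w - x⟫) * ‖R' • w - x‖ ^ 2
        = 2 * ⟪N, R' • w - x⟫ * (hD b z * (‖b‖ ^ 2 * ‖R' • w - x‖ ^ 2)) := by ring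
      _ = 2 * ⟪N, R' • w - x⟫ := by rw [hDx, mul_inv_cancel₀ hD0.ne', mul_one]
  have hεw : ‖ε - w‖ < δ1 := by
    have h3 : e = ε - (2 * ⟪w, ε⟫) • w := by
      rw [hee, hbd, norm_smul, hw, real_inner_smul_left, smul_smul]
      congr 2
      rw [Real.norm_of_nonneg (inv_nonneg.2 hR'.le)]
      field_simp
    have h4 : ⟪e, w⟫ = -⟪ε, w⟫ := by
      rw [h3, inner_sub_left, real_inner_smul_left, real_inner_self_eq_norm_sq, hw,
        real_inner_comm ε w]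
      ring
    have h5 : ‖-e - w‖ ^ 2 = ‖ε - w‖ ^ 2 := by
      rw [@norm_sub_sq_real, @norm_sub_sq_real, inner_neg_left, norm_neg, he, hε1, h4]
      ring
    have h6 : ‖-e - w‖ = ‖ε - w‖ :=
      (pow_left_inj₀ (norm_nonneg _) (norm_nonneg _) two_ne_zero).1 h5
    rwa [← h6]
  have hxR : ‖x‖ ≤ R0 := hr x (le_of_eq hFx)
  obtain ⟨hT0, hT3⟩ := hnum w x N ε T hw hxR hN1 hε1 hT1 hT2 hεw
  have hG := hGau_near hR0 h1 h2 hw hxR hN1 hε1 hT1 hT0 hT3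
  have hG' : ‖hGau R (nrm F x) x - w‖ < δ := by
    rw [← hN]
    exact lt_of_pow_lt_pow_left₀ 2 hδ.le (hG.trans_lt hsmall)
  have hlow := hcurv x hFx hG'
  rw [← hN] at hlow
  obtain ⟨h3, h4, h5, h6, h7⟩ := hRad_facts (h1.trans h2) hN1 hxR
  have hρ : (hRad R N x)⁻¹ < T := by
    rw [inv_lt_iff_one_lt_mul₀ h4]
    have h8 : 2 * (R + ⟪x, N⟫) < T * (2 * hRad R N x * (R + ⟪x, N⟫)) := by
      rw [h6]
      exact hT3
    have h9 : 2 * (R + ⟪x, N⟫) * 1 < 2 * (R + ⟪x, N⟫) * (T * hRad R N x) := by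
      calc 2 * (R + ⟪x, N⟫) * 1 = 2 * (R + ⟪x, N⟫) := mul_one _
        _ < T * (2 * hRad R N x * (R + ⟪x, N⟫)) := h8
        _ = 2 * (R + ⟪x, N⟫) * (T * hRad R N x) := by ring
    exact lt_of_mul_lt_mul_left h9 (by linarith)
  -- the image of `N'`
  have hinj : Function.Injective (fderiv ℝ (hK b) z : V →ₗ[ℝ] V) := by
    rw [← LinearMap.ker_eq_bot, LinearMap.ker_eq_bot']
    intro a ha
    by_contra h0
    apply hA_ne hD0 h0
    rw [← hK_fderiv_apply hD0]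
    exact ha
  have hfr : Module.finrank ℝ (N'.map (fderiv ℝ (hK b) z : V →ₗ[ℝ] V)) = Module.finrank ℝ N' :=
    ((Submodule.equivMapOfInjective _ hinj N').finrank_eq).symm
  rw [← hfr]
  refine (Spec_le n hn F hF x hgx (hRad R N x)⁻¹ (inv_nonneg.2 h4.le) _ ?_ ?_).trans hlow
  · rintro _ ⟨a, ha, rfl⟩
    have h8 : (fderiv ℝ (hK b) z : V →ₗ[ℝ] V) a = hA b z a := hK_fderiv_apply hD0 a
    rw [h8, ← hN, hNe', real_inner_comm, hNe a ha]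
    ring
  · rintro _ ⟨a, ha, rfl⟩ ha0
    have h8 : (fderiv ℝ (hK b) z : V →ₗ[ℝ] V) a = hA b z a := hK_fderiv_apply hD0 a
    rw [h8] at ha0 ⊢
    have ha1 : a ≠ 0 := by
      rintro rfl
      apply ha0
      rw [← hK_fderiv_apply hD0, map_zero]
    have h9 : ⟪N, hA b z a⟫ = 0 := by
      rw [hNe', real_inner_comm, hNe a ha]
      ring
    have h10 : fderiv ℝ F (hK b z) (hA b z a) = 0 := by
      rw [← hx, hF1, h9, mul_zero]
    have h11 := hH_second hF hL0 hL hD0 a h10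
    have h12 := hneg a ha ha1
    rw [h11, ← hx, hF1] at h12
    have h13 := hA_norm_sq hD0 a
    have h14 : 2 * ‖a‖ ^ 2 / hD b z * (g * ⟪N, b - ‖b‖ ^ 2 • x⟫) = g * T * ‖hA b z a‖ ^ 2 := by
      rw [h13, hT, ← hx]
      field_simp
    rw [h14] at h12
    rw [level_form F hF x _ (by rw [← hN, real_inner_comm]; exact h9), ← hgd]
    have h15 : 0 < ‖hA b z a‖ ^ 2 := by
      have := norm_pos_iff.2 ha0
      positivity
    have h16 : g⁻¹ * fderiv ℝ (fderiv ℝ F) x (hA b z a) (hA b z a) < -T * ‖hA b z a‖ ^ 2 := by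
      rw [inv_mul_lt_iff₀ hg0]
      linarith
    refine h16.trans ?_
    have := mul_lt_mul_of_pos_right hρ h15
    linarith

end Pool.Schoen
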