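import Pool.Agent.H.MP_6c077c_gt.Hy.Fam

/-! Moebius transformations of a Euclidean space: second derivatives. -/

set_option autoImplicit false

namespace Pool.Schoen

open Filter Set
open scoped RealInnerProductSpace ContDiff Topology

variable {V : Type*} [NormedAddCommGroup V] [InnerProductSpace ℝ V]

theorem hA_hasDerivAt {b z : V} (h : 0 < hD b z) (a : V) :
    HasDerivAt (fun s : ℝ => hA b (z + s • a) a)
      ((hD b z)⁻¹ • ((2 * ‖a‖ ^ 2) • (b - ‖b‖ ^ 2 • hK b z)) -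
        (2 * (2 * ⟪b, a⟫ + 2 * ‖b‖ ^ 2 * ⟪z, a⟫) / hD b z) • hA b z a) 0 := by
  have h0 : 0 < hD b (z + (0 : ℝ) • a) := by simpa using h
  have e0 : z + (0 : ℝ) • a = z := by simp
  have h1 : HasDerivAt (fun s : ℝ => z + s • a) a 0 := by
    simpa using ((hasDerivAt_id (0 : ℝ)).smul_const a).const_add z
  have h2 : HasDerivAt (fun s : ℝ => ⟪z + s • a, a⟫) (‖a‖ ^ 2) 0 := by
    have := h1.inner ℝ (hasDerivAt_const (0 : ℝ) a)
    simpa using this
  have hD1 : HasDerivAt (fun s : ℝ => hD b (z + s • a)) (2 * ⟪b, a⟫ + 2 * ‖b‖ ^ 2 * ⟪z, a⟫) 0 := by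
    have := hD_hasDerivAt b z a 0
    rwa [e0] at this
  have hK1 : HasDerivAt (fun s : ℝ => hK b (z + s • a)) (hA b z a) 0 := by
    have := hK_hasDerivAt b z a 0 h0
    rwa [e0] at this
  have hP : HasDerivAt (fun s : ℝ => a + (2 * ⟪z + s • a, a⟫) • b) ((2 * ‖a‖ ^ 2) • b) 0 :=
    ((h2.const_mul 2).smul_const b).const_add a
  have hD2 : HasDerivAt (fun s : ℝ => 2 * ⟪b, a⟫ + 2 * ‖b‖ ^ 2 * ⟪z + s • a, a⟫)
      (2 * ‖b‖ ^ 2 * ‖a‖ ^ 2) 0 := (h2.const_mul _).const_add _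
  have hQ := hP.sub (hD2.smul hK1)
  have hR := (hD1.inv h0.ne').smul hQ
  have hfun : (fun s : ℝ => hA b (z + s • a) a) =
      ((fun s : ℝ => hD b (z + s • a))⁻¹ • ((fun s : ℝ => a + (2 * ⟪z + s • a, a⟫) • b) -
        (fun s : ℝ => 2 * ⟪b, a⟫ + 2 * ‖b‖ ^ 2 * ⟪z + s • a, a⟫) •
          fun s : ℝ => hK b (z + s • a))) := by
    funext s
    rfl
  rw [hfun]
  refine hR.congr_deriv ?_
  have hA1 : a + (2 * ⟪z, a⟫) • b - (2 * ⟪b, a⟫ + 2 * ‖b‖ ^ 2 * ⟪z, a⟫) • hK b z =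
      hD b z • hA b z a := by
    rw [hA, smul_smul, mul_inv_cancel₀ h.ne', one_smul]
  simp only [Pi.inv_apply, Pi.sub_apply, Pi.smul_apply', zero_smul, add_zero, hA1]
  have h3 := h.ne'
  match_scalars
  · field_simp
  · field_simp
    ring
  · field_simp

/-- The second derivative of a Moebius image. -/
theorem hH_second [FiniteDimensional ℝ V] {F : V → ℝ} (hF : ContDiff ℝ ∞ F) {L : ℝ} (hL0 : 0 < L)
    (hL : ∀ z, L ≤ ‖z‖ → F z = 1) {b z : V} (h : 0 < hD b z) (a : V)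
    (ha : fderiv ℝ F (hK b z) (hA b z a) = 0) :
    fderiv ℝ (fderiv ℝ (hH F b)) z a a =
      fderiv ℝ (fderiv ℝ F) (hK b z) (hA b z a) (hA b z a) +
        2 * ‖a‖ ^ 2 / hD b z * fderiv ℝ F (hK b z) (b - ‖b‖ ^ 2 • hK b z) := by
  have hHs : ContDiff ℝ ∞ (hH F b) := hH_contDiff hF hL0 hL b
  have e0 : z + (0 : ℝ) • a = z := by simp
  have h0 : 0 < hD b (z + (0 : ℝ) • a) := by simpa using h
  have h1 : HasDerivAt (fun s : ℝ => z + s • a) a 0 := by
    simpa using ((hasDerivAt_id (0 : ℝ)).smul_const a).const_add z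
  -- left hand side
  have hf2 : ContDiff ℝ ∞ (fderiv ℝ (hH F b)) := hHs.fderiv_right (by norm_cast)
  have hl : HasDerivAt (fun s : ℝ => fderiv ℝ (hH F b) (z + s • a) a)
      (fderiv ℝ (fderiv ℝ (hH F b)) z a a) 0 := by
    have h2 : HasFDerivAt (fderiv ℝ (hH F b)) (fderiv ℝ (fderiv ℝ (hH F b)) z)
        (z + (0 : ℝ) • a) := by
      rw [e0]
      exact (hf2.differentiable (by simp) z).hasFDerivAt
    have h3 : HasDerivAt (fun s : ℝ => fderiv ℝ (hH F b) (z + s • a))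
        (fderiv ℝ (fderiv ℝ (hH F b)) z a) 0 := h2.comp_hasDerivAt (0 : ℝ) h1
    simpa using h3.clm_apply (hasDerivAt_const (0 : ℝ) a)
  -- right hand side
  have hF2 : ContDiff ℝ ∞ (fderiv ℝ F) := hF.fderiv_right (by norm_cast)
  have hK1 : HasDerivAt (fun s : ℝ => hK b (z + s • a)) (hA b z a) 0 := by
    have := hK_hasDerivAt b z a 0 h0
    rwa [e0] at this
  have hr : HasDerivAt (fun s : ℝ => fderiv ℝ F (hK b (z + s • a)) (hA b (z + s • a) a))
      (fderiv ℝ (fderiv ℝ F) (hK b z) (hA b z a) (hA b z a) +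
        2 * ‖a‖ ^ 2 / hD b z * fderiv ℝ F (hK b z) (b - ‖b‖ ^ 2 • hK b z)) 0 := by
    have h2 : HasFDerivAt (fderiv ℝ F) (fderiv ℝ (fderiv ℝ F) (hK b z))
        (hK b (z + (0 : ℝ) • a)) := by
      rw [e0]
      exact (hF2.differentiable (by simp) _).hasFDerivAt
    have h3 : HasDerivAt (fun s : ℝ => fderiv ℝ F (hK b (z + s • a)))
        (fderiv ℝ (fderiv ℝ F) (hK b z) (hA b z a)) 0 := h2.comp_hasDerivAt (0 : ℝ) hK1
    have h4 := h3.clm_apply (hA_hasDerivAt h a)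
    refine h4.congr_deriv ?_
    rw [e0, map_sub, map_smul, map_smul, map_smul, ha]
    simp only [smul_eq_mul, mul_zero, sub_zero]
    ring
  have hev : (fun s : ℝ => fderiv ℝ (hH F b) (z + s • a) a) =ᶠ[𝓝 0]
      fun s : ℝ => fderiv ℝ F (hK b (z + s • a)) (hA b (z + s • a) a) := by
    have h5 : ContinuousAt (fun s : ℝ => hD b (z + s • a)) 0 :=
      (hD_hasDerivAt b z a 0).continuousAt
    filter_upwards [continuousAt_const.eventually_lt h5 h0] with s hs
    have h6 := hH_line hF hs a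
    have h7 : HasDerivAt (fun t : ℝ => z + s • a + t • a) a 0 := by
      simpa using ((hasDerivAt_id (0 : ℝ)).smul_const a).const_add (z + s • a)
    have h8 : HasFDerivAt (hH F b) (fderiv ℝ (hH F b) (z + s • a)) (z + s • a + (0 : ℝ) • a) := by
      have := (hHs.differentiable (by simp) (z + s • a)).hasFDerivAt
      simpa using this
    have h9 : HasDerivAt (hH F b ∘ fun t : ℝ => z + s • a + t • a)
        (fderiv ℝ (hH F b) (z + s • a) a) 0 := HasFDerivAt.comp_hasDerivAt (0 : ℝ) h8 h7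
    exact HasDerivAt.unique h9 h6
  exact hl.unique (hr.congr_of_eventuallyEq hev)

/-- The first derivative. -/
theorem hH_first [FiniteDimensional ℝ V] {F : V → ℝ} (hF : ContDiff ℝ ∞ F) {L : ℝ} (hL0 : 0 < L)
    (hL : ∀ z, L ≤ ‖z‖ → F z = 1) {b z : V} (h : 0 < hD b z) (a : V) :
    fderiv ℝ (hH F b) z a = fderiv ℝ F (hK b z) (hA b z a) := by
  have hHs : ContDiff ℝ ∞ (hH F b) := hH_contDiff hF hL0 hL b
  have h1 : HasDerivAt (fun s : ℝ => z + s • a) a 0 := by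
    simpa using ((hasDerivAt_id (0 : ℝ)).smul_const a).const_add z
  have h8 : HasFDerivAt (hH F b) (fderiv ℝ (hH F b) z) (z + (0 : ℝ) • a) := by
    have := (hHs.differentiable (by simp) z).hasFDerivAt
    simpa using this
  have h9 : HasDerivAt (hH F b ∘ fun t : ℝ => z + t • a) (fderiv ℝ (hH F b) z a) 0 :=
    HasFDerivAt.comp_hasDerivAt (0 : ℝ) h8 h1
  exact HasDerivAt.unique h9 (hH_line hF h a)

end Pool.Schoen
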